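import Pool.Agent.Q92.PA.Loc

/-! Solomon's relation between the subfields of a Galois extension, with the towers. -/

set_option autoImplicit false
set_option linter.unusedSectionVars false

namespace Pool.Agent.Q92.PA

open MulAction Pool.Agent.Q5.SO Pool.Agent.W353.NF Pool.Agent.W401.Cheb NumberField
open Pool.Agent.Q5.BR
open scoped Classical

theorem hyper_of_equiv' {G H : Type} [Group G] [Group H] (e : G ≃* H) (h : Hyper G) : Hyper H := by
  obtain ⟨p, hp, h1⟩ := h
  exact ⟨p, hp, hyperP_of_equiv e h1⟩

/-- **Solomon's relation.** -/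
theorem hyper_tower (L : Type) [Field L] [NumberField L] (F : Type) [Field F] [NumberField F]
    [Algebra F L] [IsGalois F L] :
    ∃ (ι : Type) (_ : Fintype ι) (Y : ι → Ext F) (a : ∀ j, Algebra (Y j).F L) (n : ι → ℤ),
      (∀ j, IsScalarTower F (Y j).F L) ∧
      (∀ j, Hyper (L ≃ₐ[(Y j).F] L)) ∧
      ∀ σ : GK F, ∑ j, n j * (fixn F (Y j).F σ : ℤ) = 1 := by
  have hfd : FiniteDimensional F L := by
    have : IsScalarTower ℚ F L := inferInstance
    exact FiniteDimensional.right ℚ F L
  let i : L →ₐ[F] AlgebraicClosure F := IsAlgClosed.lift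
  let N : IntermediateField F (AlgebraicClosure F) := i.fieldRange
  let e : L ≃ₐ[F] N := AlgEquiv.ofInjectiveField i
  have hfdN : FiniteDimensional F N := LinearEquiv.finiteDimensional e.toLinearEquiv
  have hnor : Normal F N := Normal.of_algEquiv e
  obtain ⟨ι, hι, B, n, hB, hrel⟩ := solomon_relation N
  have hnf : ∀ j, NumberField (IntermediateField.fixedField (B j)) := fun j =>
    NumberField.of_module_finite F _
  let Y : ι → Ext F := fun j => @Ext.mk F _ _ (IntermediateField.fixedField (B j)) _ (hnf j) _
  let a : ∀ j, Algebra (Y j).F L := fun j =>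
    ((e.symm : N →+* L).comp (algebraMap (IntermediateField.fixedField (B j)) N)).toAlgebra
  refine ⟨ι, hι, Y, a, n, fun j => ?_, fun j => ?_, hrel⟩
  · refine IsScalarTower.of_algebraMap_eq fun x => ?_
    exact (e.symm.commutes x).symm
  · refine hyper_of_equiv' ?_ (hB j)
    let e₁ : B j ≃* (N ≃ₐ[IntermediateField.fixedField (B j)] N) :=
      (MulEquiv.subgroupCongr (IntermediateField.fixingSubgroup_fixedField (B j)).symm).trans
        (IntermediateField.fixingSubgroupEquiv (IntermediateField.fixedField (B j)))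
    let _ := a j
    let e₂ : N ≃ₐ[IntermediateField.fixedField (B j)] L :=
      AlgEquiv.ofRingEquiv (f := (e.symm : N ≃+* L)) fun x => rfl
    exact e₁.trans (AlgEquiv.autCongr e₂)

end Pool.Agent.Q92.PA
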