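import Pool.Agent.Q92.PA.Par
import Pool.Agent.Y624.OG.ODDG

/-! Galois extensions of odd degree. -/

set_option autoImplicit false
set_option linter.unusedSectionVars false

namespace Pool.Agent.Q92.PA

open NumberField IsDedekindDomain Filter Pool.Agent.W401.Cheb Pool.Agent.W353.NF Pool.Agent.Q5.BR
open WeierstrassCurve
open scoped Classical

section
variable {K F : Type} [Field K] [NumberField K] [Field F] [NumberField F] [Algebra K F]

theorem odd_above [IsGalois K F] (hodd : Odd (Module.finrank K F))
    (v : HeightOneSpectrum (𝓞 K)) :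
    Odd (above F v).card ∧ ∀ w ∈ above F v, Odd (rdeg K w) := by
  have hfd : FiniteDimensional K F := inferInstance
  have h1 := Ideal.ncard_primesOver_mul_ramificationIdxIn_mul_inertiaDegIn v.asIdeal (𝓞 F)
    (F ≃ₐ[K] F)
  rw [IsGalois.card_aut_eq_finrank] at h1
  rw [← h1] at hodd
  have h2 := Nat.odd_mul.1 hodd
  have h3 := (Nat.odd_mul.1 h2.2).2
  constructor
  · have h4 : (Ideal.primesOver v.asIdeal (𝓞 F)) =
        (fun w : HeightOneSpectrum (𝓞 F) => w.asIdeal) '' {w | w.under (𝓞 K) = v} := by
      ext P
      constructor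
      · rintro ⟨hP, hPv⟩
        refine ⟨⟨P, hP, fun h => v.ne_bot ?_⟩, ?_, rfl⟩
        · rw [hPv.over, h]
          change (⊥ : Ideal (𝓞 F)).comap (algebraMap (𝓞 K) (𝓞 F)) = ⊥
          rw [← RingHom.ker_eq_comap_bot]
          exact (RingHom.injective_iff_ker_eq_bot _).1
            (FaithfulSMul.algebraMap_injective (𝓞 K) (𝓞 F))
        · apply HeightOneSpectrum.ext
          exact hPv.over.symm
      · rintro ⟨w, rfl, rfl⟩
        exact ⟨w.isPrime, ⟨rfl⟩⟩
    rw [h4, Set.ncard_image_of_injective _ (fun w w' h => HeightOneSpectrum.ext h)] at h2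
    have h5 : {w : HeightOneSpectrum (𝓞 F) | w.under (𝓞 K) = v} = (above F v : Set _) := by
      ext w
      rw [Finset.mem_coe, mem_above]
      rfl
    rw [h5, Set.ncard_coe_finset] at h2
    exact h2.1
  · intro w hw
    rw [mem_above] at hw
    subst hw
    have hwo : w.asIdeal.LiesOver (w.under (𝓞 K)).asIdeal := ⟨rfl⟩
    have hvm : (w.under (𝓞 K)).asIdeal.IsMaximal := (w.under (𝓞 K)).isMaximal
    have hwm : w.asIdeal.IsMaximal := w.isMaximal
    unfold rdeg
    rw [Ideal.inertiaDeg'_eq_inertiaDeg]
    rw [Ideal.inertiaDegIn_eq_inertiaDeg (w.under (𝓞 K)).asIdeal w.asIdeal (F ≃ₐ[K] F)] at h3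
    exact h3

theorem spl_odd [IsGalois K F] (hodd : Odd (Module.finrank K F)) {E : WeierstrassCurve K}
    (hE : E.IsElliptic) (hs : Semistable E) : Even (spl (E.map (algebraMap K F)) + spl E) := by
  obtain ⟨T, C, hC, hT⟩ := spl_eq hE hs
  have h5 : E.map (algebraMap K K) = E := by
    rw [Algebra.algebraMap_self, WeierstrassCurve.map_id]
  have h6 := hT K
  rw [h5] at h6
  rw [hT F, h6, ← Finset.sum_add_distrib]
  refine Finset.even_sum _ fun v _ => ?_
  have key : ∀ (L : Type) [Field L] [NumberField L] [Algebra K L], IsGalois K L →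
      Odd (Module.finrank K L) → ((above L v).filter fun w => C v (rdeg K w)).card =
        if C v 1 then (above L v).card else 0 := by
    intro L _ _ _ hL hLo
    have h7 := (odd_above hLo v).2
    split_ifs with h8
    · rw [Finset.filter_true_of_mem]
      intro w hw
      exact (hC v _ (h7 w hw)).2 h8
    · rw [Finset.filter_false_of_mem, Finset.card_empty]
      intro w hw h9
      exact h8 ((hC v _ (h7 w hw)).1 h9)
  have hKg : IsGalois K K := inferInstance
  have hKo : Odd (Module.finrank K K) := by
    rw [Module.finrank_self]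
    exact odd_one
  rw [key F inferInstance hodd, key K hKg hKo]
  split_ifs
  · exact (odd_above hodd v).1.add_odd (odd_above hKo v).1
  · exact Even.zero

theorem pl_odd [IsGalois K F] (hodd : Odd (Module.finrank K F)) : Even (pl F + pl K) := by
  have h0 : IsUnramifiedAtInfinitePlaces K F := IsUnramifiedAtInfinitePlaces_of_odd_finrank hodd
  have h1 := IsUnramifiedAtInfinitePlaces.card_infinitePlace K F
  unfold pl
  rw [Nat.card_eq_fintype_card, Nat.card_eq_fintype_card, h1, ← Nat.mul_add_one]
  exact hodd.add_one.mul_left _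

theorem rk_odd [IsGalois K F] (hodd : Odd (Module.finrank K F)) {E : WeierstrassCurve K}
    (hE : E.IsElliptic) : Even (rk (E.map (algebraMap K F)) + rk E) := by
  have hfd : FiniteDimensional K F := inferInstance
  have hfg : AddGroup.FG (E.baseChange F).toAffine.Point := by
    refine Pool.Agent.Q286.EQ.mordell_weil F _ ?_
    change (E.map (algebraMap K F)).Δ ≠ 0
    rw [WeierstrassCurve.map_Δ]
    intro h
    exact E.isUnit_Δ.ne_zero ((map_eq_zero_iff _ (algebraMap K F).injective).1 h)
  have hfin : Module.Finite ℤ (E.baseChange F).toAffine.Point := Module.Finite.iff_addGroup_fg.2 hfg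
  let _ : DistribMulAction (F ≃ₐ[K] F) (E.baseChange F).toAffine.Point :=
    { smul := fun g P => rep E F g P
      one_smul := fun P => by
        change rep E F 1 P = P
        rw [map_one]
        rfl
      mul_smul := fun g h P => by
        change rep E F (g * h) P = rep E F g (rep E F h P)
        rw [map_mul]
        rfl
      smul_zero := fun g => map_zero (rep E F g)
      smul_add := fun g P Q => map_add (rep E F g) P Q }
  have h1 := Pool.Agent.Y624.OG.ODDG (F ≃ₐ[K] F) (E.baseChange F).toAffine.Point (by
    rw [IsGalois.card_aut_eq_finrank]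
    exact hodd)
  have h2 := finrank_invariants E (F := K) (N := F) (Algebra.ofId K F)
  have h3 : (Algebra.ofId K F).fieldRange.fixingSubgroup = ⊤ := by
    rw [eq_top_iff]
    rintro g - ⟨_, ⟨x, rfl⟩⟩
    exact g.commutes x
  have h4 : Module.finrank ℤ (FixedPoints.addSubgroup (F ≃ₐ[K] F)
      (E.baseChange F).toAffine.Point) =
      Module.finrank ℤ (repR E (Algebra.ofId K F).fieldRange.fixingSubgroup).invariants := by
    have h5 : ∀ P, P ∈ FixedPoints.addSubgroup (F ≃ₐ[K] F) (E.baseChange F).toAffine.Point ↔
        P ∈ (repR E (Algebra.ofId K F).fieldRange.fixingSubgroup).invariants := by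
      intro P
      constructor
      · intro h g
        exact h g.1
      · intro h g
        exact h ⟨g, by rw [h3]; trivial⟩
    let e : FixedPoints.addSubgroup (F ≃ₐ[K] F) (E.baseChange F).toAffine.Point ≃+
        (repR E (Algebra.ofId K F).fieldRange.fixingSubgroup).invariants :=
      { toFun := fun P => ⟨P.1, (h5 _).1 P.2⟩
        invFun := fun P => ⟨P.1, (h5 _).2 P.2⟩
        left_inv := fun P => rfl
        right_inv := fun P => rfl
        map_add' := fun P Q => rfl }
    exact e.toIntLinearEquiv.finrank_eq
  rw [h4, h2] at h1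
  have h6 : Module.finrank ℤ (E.baseChange K).toAffine.Point = rk E := by
    rw [← rk_baseChange E]
    rfl
  rw [h6] at h1
  exact h1

/-- **Galois extensions of odd degree.** -/
theorem Dd_odd [IsGalois K F] (hodd : Odd (Module.finrank K F)) {E : WeierstrassCurve K}
    (hE : E.IsElliptic) (hs : Semistable E) :
    Even (Dd (E.map (algebraMap K F))) ↔ Even (Dd E) := by
  have h1 := rk_odd (F := F) hodd hE
  have h2 := pl_odd (K := K) (F := F) hodd
  have h3 := spl_odd (F := F) hodd hE hs
  have h4 : Even (Dd (E.map (algebraMap K F)) + Dd E) := by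
    unfold Dd
    have h5 : rk (E.map (algebraMap K F)) + pl F + spl (E.map (algebraMap K F)) +
        (rk E + pl K + spl E) = (rk (E.map (algebraMap K F)) + rk E) + (pl F + pl K) +
          (spl (E.map (algebraMap K F)) + spl E) := by ring
    rw [h5]
    exact (h1.add h2).add h3
  exact Nat.even_add.1 h4

end

end Pool.Agent.Q92.PA
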