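import Pool.Agent.Q5.SO.Field
import Pool.Agent.Q5.DP.Hyp

/-! Relations between permutation characters with a constant prime to `p`. -/

set_option autoImplicit false
set_option linter.unusedSectionVars false

namespace Pool.Agent.Q92.PA

open MulAction Pool.Agent.Q5.SO Pool.Agent.W353.NF Pool.Agent.W401.Cheb NumberField
open Pool.Agent.Q5 (HR.fixn_congr)
open scoped Classical

section
variable {G : Type} [Group G] [Finite G] {𝓗 : Subgroup G → Prop} [Fintype (Subgroup G)]

/-- **Banaschewski's lemma at one prime.** -/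
theorem ban_loc {p : ℕ} (hp : p.Prime)
    (hconj : ∀ B a, 𝓗 B → 𝓗 (B.map (MulAut.conj a).toMonoidHom))
    (hinf : ∀ B C, 𝓗 B → 𝓗 C → 𝓗 (B ⊓ C))
    (h : ∀ g : G, ∃ B, 𝓗 B ∧ ¬ (p : ℤ) ∣ fq B g) :
    ∃ c : ℤ, ¬ (p : ℤ) ∣ c ∧ Cmb 𝓗 (fun _ : G => c) := by
  have hpi : Prime (p : ℤ) := Nat.prime_iff_prime_int.1 hp
  choose B hB hBp using h
  have : Fintype G := Fintype.ofFinite G
  have h4 : ∀ s : Finset G, ∃ ψ : G → ℤ, Cmb 𝓗 ψ ∧
      ∀ x, ∏ g ∈ s, (fq (B g) g - fq (B g) x) = ∏ g ∈ s, fq (B g) g - ψ x := by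
    intro s
    induction s using Finset.induction_on with
    | empty => exact ⟨_, Cmb.zero, fun x => by simp⟩
    | insert a s ha ih =>
      obtain ⟨ψ, h1, h2⟩ := ih
      refine ⟨fun x => (∏ g ∈ s, fq (B g) g) * fq (B a) x + (fq (B a) a * ψ x +
        (-1) * (fq (B a) x * ψ x)), ((Cmb.of (hB a)).smul _).add ((h1.smul _).add
        (((Cmb.of (hB a)).mul hconj hinf h1).smul (-1))), fun x => ?_⟩
      rw [Finset.prod_insert ha, Finset.prod_insert ha, h2]
      ring
  obtain ⟨ψ, h5, h6⟩ := h4 Finset.univ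
  refine ⟨∏ g, fq (B g) g, ?_, ?_⟩
  · rw [hpi.dvd_finsetProd_iff]
    rintro ⟨g, -, hg⟩
    exact hBp g hg
  · have h7 : ψ = fun _ => ∏ g, fq (B g) g := by
      funext x
      have h8 := h6 x
      rw [Finset.prod_eq_zero (Finset.mem_univ x) (by rw [sub_self])] at h8
      linarith
    rw [← h7]
    exact h5

end

section
variable {K : Type} [Field K] [NumberField K]

theorem rel_of_cmb_c (N : IntermediateField K (AlgebraicClosure K)) [FiniteDimensional K N]
    [hN : Normal K N] [Fintype (Subgroup (N ≃ₐ[K] N))] {𝓗 : Subgroup (N ≃ₐ[K] N) → Prop} {c : ℤ}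
    (h : Cmb 𝓗 (fun _ => c)) :
    ∃ (ι : Type) (_ : Fintype ι) (B : ι → Subgroup (N ≃ₐ[K] N)) (n : ι → ℤ),
      (∀ j, 𝓗 (B j)) ∧
      ∀ σ : GK K, ∑ j, n j * (fixn K (IntermediateField.fixedField (B j)) σ : ℤ) = c := by
  obtain ⟨n, hn, hn'⟩ := h
  refine ⟨{B : Subgroup (N ≃ₐ[K] N) // n B ≠ 0}, inferInstance, fun B => B.1, fun B => n B.1,
    fun B => hn B.1 B.2, fun σ => ?_⟩
  refine Eq.trans ?_ (hn' (AlgEquiv.restrictNormal σ N)).symm
  rw [Finset.sum_congr rfl fun (B : {B : Subgroup (N ≃ₐ[K] N) // n B ≠ 0}) _ =>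
    congrArg (fun t => n B.1 * t) (fixn_fq N B.1 σ)]
  have h2 : ∀ B : Subgroup (N ≃ₐ[K] N), B ∈ Finset.univ.filter (fun B => n B ≠ 0) ↔ n B ≠ 0 := by
    intro B
    simp
  rw [← Finset.sum_subtype (Finset.univ.filter (fun B => n B ≠ 0)) h2
    (fun B => n B * fq B (AlgEquiv.restrictNormal σ N : N ≃ₐ[K] N))]
  rw [Finset.sum_filter_of_ne]
  intro B _ hB h3
  apply hB
  rw [h3, zero_mul]

/-- families that are closed under isomorphisms and composita, with the fixed point condition at
`p` -/
def ExactAt (p : ℕ) (𝓕 : Set (IntermediateField K (AlgebraicClosure K))) : Prop :=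
  (∀ F ∈ 𝓕, FiniteDimensional K F) ∧
  (∀ F ∈ 𝓕, ∀ F' : IntermediateField K (AlgebraicClosure K), Nonempty (F ≃ₐ[K] F') → F' ∈ 𝓕) ∧
  (∀ F ∈ 𝓕, ∀ F' ∈ 𝓕, F ⊔ F' ∈ 𝓕) ∧
  ∀ σ : GK K, ∃ F ∈ 𝓕, ¬ p ∣ fixn K F σ

/-- **The relation in a family.** -/
theorem exactAt_relation {p : ℕ} (hp : p.Prime)
    {𝓕 : Set (IntermediateField K (AlgebraicClosure K))} (hF : ExactAt p 𝓕) :
    ∃ (ι : Type) (_ : Fintype ι) (F : ι → IntermediateField K (AlgebraicClosure K)) (n : ι → ℤ)
      (c : ℤ), ¬ (p : ℤ) ∣ c ∧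
      (∀ j, F j ∈ 𝓕) ∧ ∀ σ : GK K, ∑ j, n j * (fixn K (F j) σ : ℤ) = c := by
  obtain ⟨hfd, hiso, hsup, hfix⟩ := hF
  choose T hT hT' using hfix
  -- a normal field for each automorphism
  let M : GK K → IntermediateField K (AlgebraicClosure K) := fun σ =>
    IntermediateField.normalClosure K (T σ) (AlgebraicClosure K)
  have hMfd : ∀ σ, FiniteDimensional K (M σ) := by
    intro σ
    have := hfd (T σ) (hT σ)
    infer_instance
  have hMn : ∀ σ, Normal K (M σ) := fun σ => inferInstance
  obtain ⟨t, -, ht⟩ := (isCompact_univ : IsCompact (Set.univ : Set (GK K))).elim_nhds_subcover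
    (fun σ => (fun τ => σ⁻¹ * τ) ⁻¹' ((M σ).fixingSubgroup : Set (GK K))) (fun σ _ => by
      have h2 : IsOpen ((fun τ : GK K => σ⁻¹ * τ) ⁻¹' ((M σ).fixingSubgroup : Set (GK K))) :=
        (M σ).fixingSubgroup_isOpen.preimage (continuous_const.mul continuous_id)
      refine h2.mem_nhds ?_
      change σ⁻¹ * σ ∈ (M σ).fixingSubgroup
      rw [inv_mul_cancel]
      exact one_mem _)
  let N : IntermediateField K (AlgebraicClosure K) := ⨆ σ : t, M σ.1
  have hfdN : FiniteDimensional K N := IntermediateField.finiteDimensional_iSup_of_finite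
  have hnor : Normal K N := IntermediateField.normal_iSup K (AlgebraicClosure K) _
  have hgal : IsGalois K N := {}
  have hMN : ∀ σ ∈ t, M σ ≤ N := fun σ hσ => le_iSup (fun σ : t => M σ.1) ⟨σ, hσ⟩
  have : Fintype (Subgroup (N ≃ₐ[K] N)) := Fintype.ofFinite _
  let 𝓗 : Subgroup (N ≃ₐ[K] N) → Prop := fun B =>
    IntermediateField.lift (IntermediateField.fixedField B) ∈ 𝓕
  have hc : ∃ c : ℤ, ¬ (p : ℤ) ∣ c ∧ Cmb 𝓗 (fun _ => c) := by
    refine ban_loc hp ?_ ?_ ?_
    · intro B a hB
      refine hiso _ hB _ ⟨?_⟩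
      let e : IntermediateField.fixedField B ≃ₐ[K]
          IntermediateField.fixedField (B.map (MulAut.conj a).toMonoidHom) := by
        refine AlgEquiv.ofAlgHom
          (((a : N →ₐ[K] N).comp (IntermediateField.fixedField B).val).codRestrict
            (IntermediateField.fixedField (B.map (MulAut.conj a).toMonoidHom)).toSubalgebra ?_)
          ((((a⁻¹ : N ≃ₐ[K] N) : N →ₐ[K] N).comp (IntermediateField.fixedField
            (B.map (MulAut.conj a).toMonoidHom)).val).codRestrict
            (IntermediateField.fixedField B).toSubalgebra ?_) ?_ ?_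
        · intro z
          refine (IntermediateField.mem_fixedField_iff _ _).2 ?_
          rintro _ ⟨b, hb, rfl⟩
          change (a * b * a⁻¹) (a (z : N)) = a (z : N)
          have h2 : (a * b * a⁻¹) (a (z : N)) = a (b (a⁻¹ (a (z : N)))) := rfl
          have h3 : a⁻¹ (a (z : N)) = z := a.symm_apply_apply _
          rw [h2, h3, (IntermediateField.mem_fixedField_iff B _).1 z.2 b hb]
        · intro z
          refine (IntermediateField.mem_fixedField_iff _ _).2 fun b hb => ?_
          have h2 := (IntermediateField.mem_fixedField_iff _ _).1 z.2 (a * b * a⁻¹) ⟨b, hb, rfl⟩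
          change b (a⁻¹ (z : N)) = a⁻¹ (z : N)
          have h3 : a (b (a⁻¹ (z : N))) = z := h2
          have h4 := congrArg (fun y : N => (a⁻¹ : N ≃ₐ[K] N) y) h3
          have h5 : ∀ y : N, a⁻¹ (a y) = y := fun y => a.symm_apply_apply y
          simp only [h5] at h4
          exact h4
        · apply AlgHom.ext
          intro z
          apply Subtype.ext
          exact a.apply_symm_apply _
        · apply AlgHom.ext
          intro z
          apply Subtype.ext
          exact a.symm_apply_apply _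
      exact ((IntermediateField.liftAlgEquiv (IntermediateField.fixedField B)).symm.trans e).trans
        (IntermediateField.liftAlgEquiv _)
    · intro B C hB hC
      have h2 : IntermediateField.fixedField (B ⊓ C) =
          IntermediateField.fixedField B ⊔ IntermediateField.fixedField C := by
        rw [← IsGalois.fixedField_fixingSubgroup (IntermediateField.fixedField B ⊔
          IntermediateField.fixedField C), IntermediateField.fixingSubgroup_sup,
          IntermediateField.fixingSubgroup_fixedField, IntermediateField.fixingSubgroup_fixedField]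
      change IntermediateField.lift (IntermediateField.fixedField (B ⊓ C)) ∈ 𝓕
      rw [h2]
      have h3 := hsup _ hB _ hC
      change IntermediateField.map _ _ ⊔ IntermediateField.map _ _ ∈ 𝓕 at h3
      rw [← IntermediateField.map_sup] at h3
      exact h3
    · intro g
      obtain ⟨σ, hσ⟩ := AlgEquiv.restrictNormalHom_surjective (AlgebraicClosure K) (K₁ := N) g
      obtain ⟨τ, hτ⟩ := Set.mem_iUnion.1 (ht (Set.mem_univ σ))
      obtain ⟨hτt, hτ'⟩ := Set.mem_iUnion.1 hτ
      have h2 : fixn K (T τ) σ = fixn K (T τ) τ := by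
        have h3 : σ = τ * (τ⁻¹ * σ) := by group
        rw [h3]
        refine fixn_mul (T τ) τ _ fun x hx => ?_
        exact hτ' ⟨x, hx⟩
      have hFN : T τ ≤ N := (IntermediateField.le_normalClosure (T τ)).trans (hMN τ hτt)
      have h4 : IntermediateField.fixedField (IntermediateField.restrict hFN).fixingSubgroup =
          IntermediateField.restrict hFN := IsGalois.fixedField_fixingSubgroup _
      refine ⟨(IntermediateField.restrict hFN).fixingSubgroup, ?_, ?_⟩
      · change IntermediateField.lift (IntermediateField.fixedField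
          (IntermediateField.restrict hFN).fixingSubgroup) ∈ 𝓕
        rw [h4, IntermediateField.lift_restrict]
        exact hT τ
      · have h5 : fq (IntermediateField.restrict hFN).fixingSubgroup g =
            (fixn K (T τ) σ : ℤ) := by
          rw [← hσ]
          refine (fixn_fq N _ σ).symm.trans ?_
          congr 1
          rw [h4, Pool.Agent.Q5.HR.fixn_congr (IntermediateField.liftAlgEquiv
            (IntermediateField.restrict hFN)) σ, IntermediateField.lift_restrict]
        rw [h5, h2, Int.natCast_dvd_natCast]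
        exact hT' τ
  obtain ⟨c, hcp, hc⟩ := hc
  obtain ⟨ι, hι, B, n, hB, hrel⟩ := rel_of_cmb_c N hc
  refine ⟨ι, hι, fun j => IntermediateField.lift (IntermediateField.fixedField (B j)), n, c, hcp,
    hB, fun σ => ?_⟩
  rw [← hrel σ]
  refine Finset.sum_congr rfl fun j _ => ?_
  rw [Pool.Agent.Q5.HR.fixn_congr (IntermediateField.liftAlgEquiv
    (IntermediateField.fixedField (B j))) σ]

/-- `p`-hyperelementary groups -/
def HyperP (p : ℕ) (G : Type) [Group G] : Prop :=
  ∃ C : Subgroup G, C.Normal ∧ IsCyclic C ∧ (Nat.card C).Coprime p ∧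
    ∀ g : G, ∃ k : ℕ, g ^ p ^ k ∈ C

theorem hyperP_of_hypAt {G : Type} [Group G] {p : ℕ} {H : Subgroup G} (h : HypAt p H) :
    HyperP p H := by
  obtain ⟨C, h1, h2, h3, h4, h5⟩ := h
  refine ⟨C.subgroupOf H, ⟨fun c hc g => ?_⟩, ?_, ?_, fun g => ?_⟩
  · exact h2 g.1 g.2 c.1 hc
  · exact (Subgroup.subgroupOfEquivOfLe h1).isCyclic.2 h3
  · rw [Nat.card_congr (Subgroup.subgroupOfEquivOfLe h1).toEquiv]
    exact h4
  · obtain ⟨k, hk⟩ := h5 g.1 g.2
    exact ⟨k, hk⟩

theorem hyperP_of_equiv {p : ℕ} {G H : Type} [Group G] [Group H] (e : G ≃* H)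
    (h : HyperP p G) : HyperP p H := by
  obtain ⟨C, hC, hcyc, hcard, hpow⟩ := h
  refine ⟨C.map e.toMonoidHom, hC.map e.toMonoidHom e.surjective, ?_, ?_, fun g => ?_⟩
  · exact (C.equivMapOfInjective e.toMonoidHom e.injective).isCyclic.1 hcyc
  · rw [← Nat.card_congr (C.equivMapOfInjective e.toMonoidHom e.injective).toEquiv]
    exact hcard
  · obtain ⟨k, hk⟩ := hpow (e.symm g)
    refine ⟨k, _, hk, ?_⟩
    change e (e.symm g ^ p ^ k) = _
    rw [map_pow, MulEquiv.apply_symm_apply]

open Pool.Agent.Q5.BR in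
/-- **The relation between the subfields of a Galois extension.** -/
theorem hyperP_relation {p : ℕ} (hp : p.Prime) (L : Type) [Field L] [NumberField L] (F : Type)
    [Field F] [NumberField F] [Algebra F L] [IsGalois F L] :
    ∃ (ι : Type) (_ : Fintype ι) (Y : ι → Ext F) (a : ∀ j, Algebra (Y j).F L) (n : ι → ℤ) (c : ℤ),
      (∀ j, IsScalarTower F (Y j).F L) ∧
      ¬ (p : ℤ) ∣ c ∧ (∀ j, HyperP p (L ≃ₐ[(Y j).F] L)) ∧
      ∀ σ : GK F, ∑ j, n j * (fixn F (Y j).F σ : ℤ) = c := by
  have hfd : FiniteDimensional F L := by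
    have : IsScalarTower ℚ F L := inferInstance
    exact FiniteDimensional.right ℚ F L
  let i : L →ₐ[F] AlgebraicClosure F := IsAlgClosed.lift
  let N : IntermediateField F (AlgebraicClosure F) := i.fieldRange
  let e : L ≃ₐ[F] N := AlgEquiv.ofInjectiveField i
  have hfdN : FiniteDimensional F N := LinearEquiv.finiteDimensional e.toLinearEquiv
  have hnor : Normal F N := Normal.of_algEquiv e
  have : Fintype (Subgroup (N ≃ₐ[F] N)) := Fintype.ofFinite _
  obtain ⟨c, hcp, hc⟩ := ban_loc (G := N ≃ₐ[F] N) (𝓗 := fun B => HypAt p B) hp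
    (fun B a h => h.map (MulAut.conj a)) (fun B C h _ => h.le inf_le_left)
    (fun g => exists_hyp g p hp)
  obtain ⟨ι, hι, B, n, hB, hrel⟩ := rel_of_cmb_c N hc
  have hnf : ∀ j, NumberField (IntermediateField.fixedField (B j)) := fun j =>
    NumberField.of_module_finite F _
  let Y : ι → Ext F := fun j => @Ext.mk F _ _ (IntermediateField.fixedField (B j)) _ (hnf j) _
  let a : ∀ j, Algebra (Y j).F L := fun j =>
    ((e.symm : N →+* L).comp (algebraMap (IntermediateField.fixedField (B j)) N)).toAlgebra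
  refine ⟨ι, hι, Y, a, n, c, fun j => ?_, hcp, fun j => ?_, hrel⟩
  · refine IsScalarTower.of_algebraMap_eq fun x => ?_
    exact (e.symm.commutes x).symm
  · refine hyperP_of_equiv ?_ (hyperP_of_hypAt (hB j))
    -- the Galois groups
    let e₁ : B j ≃* (N ≃ₐ[IntermediateField.fixedField (B j)] N) :=
      (MulEquiv.subgroupCongr (IntermediateField.fixingSubgroup_fixedField (B j)).symm).trans
        (IntermediateField.fixingSubgroupEquiv (IntermediateField.fixedField (B j)))
    let _ := a j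
    let e₂ : N ≃ₐ[IntermediateField.fixedField (B j)] L :=
      AlgEquiv.ofRingEquiv (f := (e.symm : N ≃+* L)) fun x => rfl
    exact e₁.trans (AlgEquiv.autCongr e₂)

end

end Pool.Agent.Q92.PA
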