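import Pool.Agent.Q92.PA.Inf
import Pool.Agent.Q92.PA.Loc
import Pool.Agent.Q5.VL.Abs

/-! The parity of the sum of the rank, the number of the infinite places and the number of the primes
of split multiplicative reduction. -/

set_option autoImplicit false
set_option linter.unusedSectionVars false

namespace Pool.Agent.Q92.PA

open NumberField IsDedekindDomain Filter Pool.Agent.W401.Cheb Pool.Agent.W353.NF Pool.Agent.Q5.BR
open scoped Classical

section
variable {K : Type} [Field K] [NumberField K]

/-- the law -/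
theorem par_law {E : WeierstrassCurve K} (hE : E.IsElliptic) (hs : Semistable E) :
    Pool.Agent.Q5.VL.IsLaw (K := K) (fun F _ _ _ t =>
      (2 : ℤ) ∣ t * (Dd (E.map (algebraMap K F)) : ℤ)) where
  zero := fun F _ _ _ => by rw [zero_mul]; exact dvd_zero _
  add := by
    intro F _ _ _ t u ht hu
    rw [add_mul]
    exact dvd_add ht hu
  neg := by
    intro F _ _ _ t ht
    rw [neg_mul]
    exact (dvd_neg).2 ht
  step := by
    intro F _ _ _ ι _ Y _ _ n m hrel t hj
    have hEF : (E.map (algebraMap K F)).IsElliptic := inferInstance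
    have h1 := Dd_rel hrel hEF hs.map
    have h2 : m * t * (Dd (E.map (algebraMap K F)) : ℤ) =
        ∑ j, n j * (t * (Dd (E.map (algebraMap K (Y j).F)) : ℤ)) := by
      have h3 : m * t * (Dd (E.map (algebraMap K F)) : ℤ) =
          t * (m * (Dd (E.map (algebraMap K F)) : ℤ)) := by ring
      rw [h3, ← h1, Finset.mul_sum]
      refine Finset.sum_congr rfl fun j _ => ?_
      rw [WeierstrassCurve.map_map, ← IsScalarTower.algebraMap_eq K F (Y j).F]
      ring
    rw [h2]
    exact Finset.dvd_sum fun j _ => (hj j).mul_left _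

theorem even_of_odd {c : ℤ} (hc : ¬ (2 : ℤ) ∣ c) {d : ℕ} (h : (2 : ℤ) ∣ c * (d : ℤ)) : Even d := by
  have h1 := (Int.prime_two.dvd_mul.1 h).resolve_left hc
  rw [even_iff_two_dvd]
  exact_mod_cast h1

/-- degrees -/
theorem par_degree {E : WeierstrassCurve K} (hE : E.IsElliptic) (hs : Semistable E) {M : ℕ}
    (h : ∀ (F : Type) [Field F] [NumberField F] [Algebra K F], M ∣ Module.finrank K F →
      Even (Dd (E.map (algebraMap K F))))
    (F : Type) [Field F] [NumberField F] [Algebra K F]
    (hM : Odd (M / M.gcd (Module.finrank K F))) : Even (Dd (E.map (algebraMap K F))) := by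
  have h1 := Pool.Agent.Q5.VL.gen_power_law' (par_law hE hs) (M := M) (fun F' _ _ _ hd => by
    rw [one_mul]
    have h2 := h F' hd
    rw [even_iff_two_dvd] at h2
    exact_mod_cast h2) F
  refine even_of_odd ?_ h1
  intro h2
  have h3 : 2 ∣ M / M.gcd (Module.finrank K F) := by exact_mod_cast h2
  exact (Nat.not_even_iff_odd.2 hM) (even_iff_two_dvd.2 h3)

/-- radical extensions -/
theorem par_radical {E : WeierstrassCurve K} (hE : E.IsElliptic) (hs : Semistable E) {p : ℕ}
    (hp : p.Prime) (hp2 : p ≠ 2) {T : Set ℕ} (hT : ∀ l ∈ T, l.Prime) (hinf : T.Infinite) (k : ℕ)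
    (h : ∀ (F : Type) [Field F] [NumberField F] [Algebra K F], IsRadical T p K F →
      p ^ k ∣ Module.finrank K F → Even (Dd (E.map (algebraMap K F)))) : Even (Dd E) := by
  have hpf : Fact p.Prime := ⟨hp⟩
  have h1 := Pool.Agent.Q5.VL.gen_radical_law' (par_law hE hs) p hT hinf k
    (fun F' _ _ _ hr hd => by
      rw [one_mul]
      have h2 := h F' hr hd
      rw [even_iff_two_dvd] at h2
      exact_mod_cast h2)
  have h5 : E.map (algebraMap K K) = E := by
    rw [Algebra.algebraMap_self, WeierstrassCurve.map_id]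
  rw [h5] at h1
  refine even_of_odd ?_ h1
  intro h2
  have h3 : 2 ∣ p ^ k := by exact_mod_cast h2
  have h4 := Nat.prime_two.dvd_of_dvd_pow h3
  exact hp2 ((Nat.prime_dvd_prime_iff_eq Nat.prime_two hp).1 h4).symm

/-- families -/
theorem par_family {E : WeierstrassCurve K} (hE : E.IsElliptic) (hs : Semistable E)
    {𝓕 : Set (IntermediateField K (AlgebraicClosure K))} (hF : ExactAt 2 𝓕)
    (h : ∀ F ∈ 𝓕, ∀ [NumberField F], Even (Dd (E.map (algebraMap K F)))) : Even (Dd E) := by
  obtain ⟨ι, _, F, n, c, hc, hFj, hrel⟩ := exactAt_relation Nat.prime_two hF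
  have hfd : ∀ j, FiniteDimensional K (F j) := fun j => hF.1 _ (hFj j)
  have hnf : ∀ j, NumberField (F j) := fun j => NumberField.of_module_finite K _
  let Y : ι → Ext K := fun j => @Ext.mk K _ _ (F j) _ (hnf j) _
  have h1 := Dd_rel (Y := Y) hrel hE hs
  refine even_of_odd hc ?_
  rw [← h1]
  refine Finset.dvd_sum fun j _ => Dvd.dvd.mul_left ?_ _
  have h2 := h (F j) (hFj j)
  rw [even_iff_two_dvd] at h2
  exact_mod_cast h2

/-- hyperelementary subgroups -/
theorem par_hyper {E : WeierstrassCurve K} (hE : E.IsElliptic) (hs : Semistable E)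
    (L : Type) [Field L] [NumberField L] [Algebra K L] [IsGalois K L]
    (h : ∀ (F : Type) [Field F] [NumberField F] [Algebra K F] [Algebra F L] [IsScalarTower K F L],
      HyperP 2 (L ≃ₐ[F] L) → Even (Dd (E.map (algebraMap K F)))) : Even (Dd E) := by
  obtain ⟨ι, _, Y, a, n, c, hst, hc, hY, hrel⟩ := hyperP_relation Nat.prime_two L K
  have h1 := Dd_rel hrel hE hs
  refine even_of_odd hc ?_
  rw [← h1]
  refine Finset.dvd_sum fun j _ => Dvd.dvd.mul_left ?_ _
  have h2 := h (Y j).F (hY j)
  rw [even_iff_two_dvd] at h2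
  exact_mod_cast h2

end

end Pool.Agent.Q92.PA
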