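import Mathlib

/-! A count of fixed points on the orbits of a normal subgroup. -/

set_option autoImplicit false
set_option linter.unusedSectionVars false

namespace Pool.Agent.Q92.PA

open scoped Classical

/-- **Burnside's lemma for a coset.** -/
theorem burn {A Z T : Type} [Group A] [Fintype A] [Fintype Z] (ψ : A →* Equiv.Perm Z) (r : Z → T)
    (φ : Z → Z) (P : T → Prop) (hr : ∀ x y, r x = r y ↔ ∃ u : A, ψ u x = y)
    (hφ : ∀ x, r (φ x) = r x ↔ P (r x)) :
    ∑ u : A, Nat.card {x : Z // ψ u (φ x) = x} =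
      Nat.card A * Nat.card {t : T // (∃ x, r x = t) ∧ P t} := by
  let _ : MulAction A Z := MulAction.compHom Z ψ
  have hsm : ∀ (u : A) (x : Z), u • x = ψ u x := fun _ _ => rfl
  -- exchange of the sums
  have h1 : ∑ u : A, Nat.card {x : Z // ψ u (φ x) = x} =
      ∑ x : Z, Nat.card {u : A // ψ u (φ x) = x} := by
    have h2 : ∀ u : A, Nat.card {x : Z // ψ u (φ x) = x} =
        ∑ x : Z, if ψ u (φ x) = x then 1 else 0 := by
      intro u
      rw [Nat.card_eq_fintype_card, Fintype.card_subtype, Finset.card_filter]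
    have h3 : ∀ x : Z, Nat.card {u : A // ψ u (φ x) = x} =
        ∑ u : A, if ψ u (φ x) = x then 1 else 0 := by
      intro x
      rw [Nat.card_eq_fintype_card, Fintype.card_subtype, Finset.card_filter]
    simp only [h2, h3]
    exact Finset.sum_comm
  have h4 : ∀ x : Z, Nat.card {u : A // ψ u (φ x) = x} =
      if P (r x) then Nat.card (MulAction.stabilizer A x) else 0 := by
    intro x
    by_cases hx : P (r x)
    · rw [if_pos hx]
      obtain ⟨u₀, hu₀⟩ := (hr (φ x) x).1 ((hφ x).2 hx)
      refine Nat.card_congr ⟨fun u => ⟨u.1 * u₀⁻¹, ?_⟩, fun s => ⟨s.1 * u₀, ?_⟩, fun u => ?_,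
        fun s => ?_⟩
      · rw [MulAction.mem_stabilizer_iff, hsm, map_mul, Equiv.Perm.mul_apply]
        have h5 : ψ u₀⁻¹ x = φ x := by
          rw [map_inv, Equiv.Perm.inv_eq_iff_eq, hu₀]
        rw [h5]
        exact u.2
      · rw [map_mul, Equiv.Perm.mul_apply, hu₀]
        exact s.2
      · exact Subtype.ext (inv_mul_cancel_right _ _)
      · exact Subtype.ext (mul_inv_cancel_right _ _)
    · rw [if_neg hx, Nat.card_eq_zero]
      left
      exact ⟨fun u => hx ((hφ x).1 ((hr _ _).2 ⟨u.1, u.2⟩))⟩
  rw [h1, Finset.sum_congr rfl fun x _ => h4 x]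
  -- the fibres
  have h5 : ∀ x : Z, Nat.card {y : Z // r y = r x} * Nat.card (MulAction.stabilizer A x) =
      Nat.card A := by
    intro x
    have h6 := MulAction.card_orbit_mul_card_stabilizer_eq_card_group A x
    rw [← Nat.card_eq_fintype_card, ← Nat.card_eq_fintype_card, ← Nat.card_eq_fintype_card] at h6
    rw [← h6]
    congr 1
    refine Nat.card_congr (Equiv.subtypeEquivRight fun y => ?_)
    rw [eq_comm, hr]
    exact Iff.rfl
  have h7 : ∀ t ∈ Finset.univ.image r, ∑ x ∈ Finset.univ.filter (fun x : Z => r x = t),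
      (if P (r x) then Nat.card (MulAction.stabilizer A x) else 0) =
        if P t then Nat.card A else 0 := by
    intro t ht
    obtain ⟨x₀, -, rfl⟩ := Finset.mem_image.1 ht
    by_cases hP : P (r x₀)
    · rw [if_pos hP]
      have h8 : ∀ x ∈ Finset.univ.filter (fun x : Z => r x = r x₀),
          (if P (r x) then Nat.card (MulAction.stabilizer A x) else 0) =
            Nat.card (MulAction.stabilizer A x₀) := by
        intro x hx
        have h9 : r x = r x₀ := (Finset.mem_filter.1 hx).2
        rw [h9, if_pos hP]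
        have h10 := h5 x
        have h11 := h5 x₀
        rw [h9, ← h11] at h10
        refine Nat.eq_of_mul_eq_mul_left ?_ h10
        exact Nat.card_pos_iff.2 ⟨⟨⟨x₀, rfl⟩⟩, inferInstance⟩
      rw [Finset.sum_congr rfl h8, Finset.sum_const, smul_eq_mul, ← h5 x₀]
      congr 1
      rw [Nat.card_eq_fintype_card, Fintype.card_subtype]
    · rw [if_neg hP]
      refine Finset.sum_eq_zero fun x hx => ?_
      have h9 : r x = r x₀ := (Finset.mem_filter.1 hx).2
      rw [h9, if_neg hP]
  rw [← Finset.sum_fiberwise_of_maps_to (s := Finset.univ) (t := Finset.univ.image r)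
    (fun x _ => Finset.mem_image_of_mem r (Finset.mem_univ x)), Finset.sum_congr rfl h7,
    ← Finset.sum_filter, Finset.sum_const, smul_eq_mul, mul_comm]
  congr 1
  have h8 : {t : T // (∃ x, r x = t) ∧ P t} ≃
      {t : T // t ∈ (Finset.univ.image r).filter (fun t => P t)} :=
    Equiv.subtypeEquivRight fun t => by
      rw [Finset.mem_filter, Finset.mem_image]
      simp
  rw [Nat.card_congr h8, Nat.card_eq_fintype_card, Fintype.card_coe]

end Pool.Agent.Q92.PA
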