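import Pool.Agent.Q92.PA.Inert
import Pool.Agent.Q92.PA.Burn

/-! The primes above EVERY prime (ramified or not) in a relation between permutation characters. -/

set_option autoImplicit false
set_option linter.unusedSectionVars false

namespace Pool.Agent.Q92.PA

open NumberField IsDedekindDomain Filter Pool.Agent.W401.Cheb Pool.Agent.W353.NF Pool.Agent.Q5.BR
open scoped Classical

section
variable {K F : Type} [Field K] [NumberField K] [Field F] [NumberField F] [Algebra K F]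

/-- the reduction of an embedding -/
noncomputable def rd (Q : Ideal (𝓞 (AlgebraicClosure K))) (i : F →ₐ[K] AlgebraicClosure K) :
    𝓞 F →+* (𝓞 (AlgebraicClosure K) ⧸ Q) := (Ideal.Quotient.mk Q).comp (oi i)

theorem rd_apply (Q : Ideal (𝓞 (AlgebraicClosure K))) (i : F →ₐ[K] AlgebraicClosure K) (a : 𝓞 F) :
    rd Q i a = Ideal.Quotient.mk Q (oi i a) := rfl

theorem rd_eq_iff {Q : Ideal (𝓞 (AlgebraicClosure K))} {i j : F →ₐ[K] AlgebraicClosure K} :
    rd Q i = rd Q j ↔ ∀ a : 𝓞 F, oi i a - oi j a ∈ Q := by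
  constructor
  · intro h a
    rw [← Ideal.Quotient.mk_eq_mk_iff_sub_mem]
    exact DFunLike.congr_fun h a
  · intro h
    ext a
    rw [rd_apply, rd_apply, Ideal.Quotient.mk_eq_mk_iff_sub_mem]
    exact h a

theorem rd_zero_iff {Q : Ideal (𝓞 (AlgebraicClosure K))} {i : F →ₐ[K] AlgebraicClosure K}
    {a : 𝓞 F} : rd Q i a = 0 ↔ oi i a ∈ Q := by
  rw [rd_apply, Ideal.Quotient.eq_zero_iff_mem]

theorem rd_frob {q : ℕ} {σ : GK K} {Q : Ideal (𝓞 (AlgebraicClosure K))}
    (hQ : ∀ x : 𝓞 (AlgebraicClosure K), σ • x - x ^ q ∈ Q) (n : ℕ)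
    (i : F →ₐ[K] AlgebraicClosure K) (a : 𝓞 F) :
    rd Q (act K F (σ ^ n) i) a = rd Q i a ^ (q ^ n) := by
  rw [rd_apply, rd_apply, ← map_pow, Ideal.Quotient.mk_eq_mk_iff_sub_mem, act_apply, ← smul_oi]
  exact powers_smul σ _ Q hQ n (oi i a)

/-- **The count of the reductions giving a prime.** -/
theorem card_red (v : HeightOneSpectrum (𝓞 K)) (σ : GK K) {Q : Ideal (𝓞 (AlgebraicClosure K))}
    (hQm : Q.IsMaximal)
    (hQv : Q.comap (algebraMap (𝓞 K) (𝓞 (AlgebraicClosure K))) = v.asIdeal)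
    (hQ : ∀ x : 𝓞 (AlgebraicClosure K), σ • x - x ^ Ideal.absNorm v.asIdeal ∈ Q)
    (w : HeightOneSpectrum (𝓞 F)) (hw : w.under (𝓞 K) = v) (n : ℕ) :
    Nat.card {r : 𝓞 F →+* (𝓞 (AlgebraicClosure K) ⧸ Q) //
      ((∃ i : F →ₐ[K] AlgebraicClosure K, rd Q i = r) ∧
        ∀ a, r a ^ (Ideal.absNorm v.asIdeal ^ n) = r a) ∧ ∀ a, r a = 0 ↔ a ∈ w.asIdeal} =
      if rdeg K w ∣ n then rdeg K w else 0 := by
  subst hw
  set v := w.under (𝓞 K) with hv
  have hwo : w.asIdeal.LiesOver v.asIdeal := ⟨rfl⟩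
  have hvm : v.asIdeal.IsMaximal := v.isMaximal
  have hwm : w.asIdeal.IsMaximal := w.isMaximal
  have hQp : Q.IsPrime := hQm.isPrime
  let _ : Field (𝓞 (AlgebraicClosure K) ⧸ Q) := Ideal.Quotient.field Q
  let _ : Field (𝓞 K ⧸ v.asIdeal) := Ideal.Quotient.field v.asIdeal
  let _ : Field (𝓞 F ⧸ w.asIdeal) := Ideal.Quotient.field w.asIdeal
  have hfk : Finite (𝓞 K ⧸ v.asIdeal) := Ideal.finiteQuotientOfFreeOfNeBot v.asIdeal v.ne_bot
  have hfw : Finite (𝓞 F ⧸ w.asIdeal) := Ideal.finiteQuotientOfFreeOfNeBot w.asIdeal w.ne_bot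
  let _ : Fintype (𝓞 K ⧸ v.asIdeal) := Fintype.ofFinite _
  have hQo : Q.LiesOver v.asIdeal := ⟨hQv.symm⟩
  have hcard : Ideal.absNorm v.asIdeal = Fintype.card (𝓞 K ⧸ v.asIdeal) := by
    rw [Ideal.absNorm_apply, Submodule.cardQuot_apply, Nat.card_eq_fintype_card]
  have hf : Module.finrank (𝓞 K ⧸ v.asIdeal) (𝓞 F ⧸ w.asIdeal) = rdeg K w := by
    unfold rdeg
    rw [Ideal.inertiaDeg'_algebraMap]
  -- the powers of the Frobenius automorphism of the residue field
  have hpow : ∀ n, (∀ y : 𝓞 F ⧸ w.asIdeal, y ^ (Ideal.absNorm v.asIdeal ^ n) = y) ↔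
      rdeg K w ∣ n := by
    intro n
    rw [← hf, ← FiniteField.orderOf_frobeniusAlgEquivOfAlgebraic, orderOf_dvd_iff_pow_eq_one,
      DFunLike.ext_iff]
    refine forall_congr' fun y => ?_
    rw [AlgEquiv.coe_pow, FiniteField.coe_frobeniusAlgEquivOfAlgebraic_iterate, hcard]
    rfl
  have hfix : ∀ n (r : 𝓞 F →+* (𝓞 (AlgebraicClosure K) ⧸ Q)), (∀ a, r a = 0 ↔ a ∈ w.asIdeal) →
      ((∀ a, r a ^ (Ideal.absNorm v.asIdeal ^ n) = r a) ↔ rdeg K w ∣ n) := by
    intro n r hr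
    rw [← hpow]
    constructor
    · intro h y
      obtain ⟨a, rfl⟩ := Ideal.Quotient.mk_surjective y
      rw [← map_pow, Ideal.Quotient.mk_eq_mk_iff_sub_mem, ← hr, map_sub, map_pow, h, sub_self]
    · intro h a
      have h1 := h (Ideal.Quotient.mk _ a)
      rw [← map_pow, Ideal.Quotient.mk_eq_mk_iff_sub_mem, ← hr, map_sub, map_pow, sub_eq_zero] at h1
      exact h1
  -- the set over `w`
  set R : Type := {r : 𝓞 F →+* (𝓞 (AlgebraicClosure K) ⧸ Q) //
      (∃ i : F →ₐ[K] AlgebraicClosure K, rd Q i = r) ∧ ∀ a, r a = 0 ↔ a ∈ w.asIdeal} with hR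
  have hlift : ∀ r : R, ∃ φ : (𝓞 F ⧸ w.asIdeal) →ₐ[𝓞 K ⧸ v.asIdeal] (𝓞 (AlgebraicClosure K) ⧸ Q),
        ∀ a, φ (Ideal.Quotient.mk w.asIdeal a) = r.1 a := by
    rintro ⟨r, ⟨i, rfl⟩, hi⟩
    refine ⟨{ Ideal.Quotient.lift w.asIdeal (rd Q i) (fun a ha => ?_) with
      commutes' := ?_ }, fun a => rfl⟩
    · rw [hi]
      exact ha
    · intro r
      obtain ⟨a, rfl⟩ := Ideal.Quotient.mk_surjective r
      change rd Q i (algebraMap (𝓞 K) (𝓞 F) a) = _
      rw [rd_apply, oi_alg]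
      rfl
  choose Φ hΦ using hlift
  have hΦinj : Function.Injective Φ := by
    intro r s hrs
    apply Subtype.ext
    ext a
    rw [← hΦ, ← hΦ, hrs]
  have hfd : Module.Finite (𝓞 K ⧸ v.asIdeal) (𝓞 F ⧸ w.asIdeal) := Module.Finite.of_finite
  have hRfin : Finite R := Finite.of_injective Φ hΦinj
  have hle : Nat.card R ≤ rdeg K w := by
    rw [← hf]
    refine (Nat.card_le_card_of_injective Φ hΦinj).trans ?_
    exact card_algHom_le_finrank _ _ _
  obtain ⟨i0, hi0⟩ := exists_emb' hQm hQv w rfl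
  have h00 : ∀ a, rd Q i0 a = 0 ↔ a ∈ w.asIdeal := fun a => rd_zero_iff.trans (hi0 a)
  have horb : ∀ n a, rd Q (act K F (σ ^ n) i0) a = 0 ↔ a ∈ w.asIdeal := by
    intro n a
    rw [rd_frob hQ, ← h00]
    refine pow_eq_zero_iff (pow_ne_zero _ ?_)
    rw [hcard]
    exact Fintype.card_ne_zero
  have hinjq : ∀ (m : ℕ) (x : 𝓞 (AlgebraicClosure K)), (σ ^ m) • x ∈ Q → x ∈ Q := by
    intro m x hx
    have h1 := Q.sub_mem hx (powers_smul σ _ Q hQ m x)
    rw [sub_sub_cancel] at h1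
    exact hQp.mem_of_pow_mem _ h1
  have hge : rdeg K w ≤ Nat.card R := by
    have hinj : Function.Injective (fun m : Fin (rdeg K w) =>
        (⟨rd Q (act K F (σ ^ (m : ℕ)) i0), ⟨_, rfl⟩, horb m⟩ : R)) := by
      have key : ∀ m m' : ℕ, m ≤ m' → m' < rdeg K w →
          rd Q (act K F (σ ^ m) i0) = rd Q (act K F (σ ^ m') i0) → m = m' := by
        intro m m' hmm hm' h
        obtain ⟨d, rfl⟩ := Nat.exists_eq_add_of_le hmm
        rw [rd_eq_iff] at h
        have h2 : rd Q i0 = rd Q (act K F (σ ^ d) i0) := by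
          rw [rd_eq_iff]
          intro a
          refine hinjq m _ ?_
          have h3 := h a
          rw [pow_add, map_mul, Equiv.Perm.mul_apply] at h3
          rw [smul_sub]
          exact h3
        have h4 := (hfix d (rd Q i0) h00).1 (fun a => by
          rw [← rd_frob hQ, ← h2])
        rcases Nat.eq_zero_or_pos d with h5 | h5
        · rw [h5, add_zero]
        · have := Nat.le_of_dvd h5 h4
          omega
      intro m m' h
      have h1 : rd Q (act K F (σ ^ (m : ℕ)) i0) = rd Q (act K F (σ ^ (m' : ℕ)) i0) :=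
        congrArg Subtype.val h
      apply Fin.ext
      rcases le_total (m : ℕ) m' with h2 | h2
      · exact key _ _ h2 m'.2 h1
      · exact (key _ _ h2 m.2 h1.symm).symm
    have := Nat.card_le_card_of_injective _ hinj
    rwa [Nat.card_eq_fintype_card, Fintype.card_fin] at this
  by_cases hn : rdeg K w ∣ n
  · rw [if_pos hn, ← le_antisymm hle hge]
    refine Nat.card_congr (Equiv.subtypeEquivRight fun r => ?_)
    exact ⟨fun h => ⟨h.1.1, h.2⟩, fun h => ⟨⟨h.1, (hfix n r h.2).2 hn⟩, h.2⟩⟩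
  · rw [if_neg hn, Nat.card_eq_zero]
    left
    exact ⟨fun r => hn ((hfix n r.1 r.2.2).1 r.2.1.2)⟩

/-- **The count of the reductions.** -/
theorem card_redn (v : HeightOneSpectrum (𝓞 K)) (σ : GK K) {Q : Ideal (𝓞 (AlgebraicClosure K))}
    (hQm : Q.IsMaximal)
    (hQv : Q.comap (algebraMap (𝓞 K) (𝓞 (AlgebraicClosure K))) = v.asIdeal)
    (hQ : ∀ x : 𝓞 (AlgebraicClosure K), σ • x - x ^ Ideal.absNorm v.asIdeal ∈ Q) (n : ℕ) :
    Nat.card {r : 𝓞 F →+* (𝓞 (AlgebraicClosure K) ⧸ Q) //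
      (∃ i : F →ₐ[K] AlgebraicClosure K, rd Q i = r) ∧
        ∀ a, r a ^ (Ideal.absNorm v.asIdeal ^ n) = r a} =
      ∑ w ∈ above F v, if rdeg K w ∣ n then rdeg K w else 0 := by
  have h1 : ∀ w ∈ above F v, (if rdeg K w ∣ n then rdeg K w else 0) =
      Nat.card {r : 𝓞 F →+* (𝓞 (AlgebraicClosure K) ⧸ Q) //
      ((∃ i : F →ₐ[K] AlgebraicClosure K, rd Q i = r) ∧
        ∀ a, r a ^ (Ideal.absNorm v.asIdeal ^ n) = r a) ∧ ∀ a, r a = 0 ↔ a ∈ w.asIdeal} :=
    fun w hw => (card_red v σ hQm hQv hQ w (mem_above.1 hw) n).symm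
  rw [Finset.sum_congr rfl h1]
  -- the prime of a reduction
  have hex : ∀ r : {r : 𝓞 F →+* (𝓞 (AlgebraicClosure K) ⧸ Q) //
      (∃ i : F →ₐ[K] AlgebraicClosure K, rd Q i = r) ∧
        ∀ a, r a ^ (Ideal.absNorm v.asIdeal ^ n) = r a}, ∃ w : HeightOneSpectrum (𝓞 F),
      w.under (𝓞 K) = v ∧ ∀ a : 𝓞 F, r.1 a = 0 ↔ a ∈ w.asIdeal := by
    rintro ⟨r, ⟨i, rfl⟩, -⟩
    have hQp : Q.IsPrime := hQm.isPrime
    have hc : (Q.comap (oi i)).comap (algebraMap (𝓞 K) (𝓞 F)) = v.asIdeal := by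
      rw [← hQv]
      ext a
      rw [Ideal.mem_comap, Ideal.mem_comap, Ideal.mem_comap, oi_alg]
    refine ⟨⟨Q.comap (oi i), Ideal.comap_isPrime _ _, fun h => v.ne_bot ?_⟩, ?_,
      fun a => rd_zero_iff⟩
    · rw [← hc, h]
      rw [← RingHom.ker_eq_comap_bot]
      exact (RingHom.injective_iff_ker_eq_bot _).1
        (FaithfulSMul.algebraMap_injective (𝓞 K) (𝓞 F))
    · apply HeightOneSpectrum.ext
      exact hc
  choose W hW1 hW2 using hex
  have hWu : ∀ r w, (∀ a : 𝓞 F, r.1 a = 0 ↔ a ∈ w.asIdeal) → W r = w := by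
    intro r w h
    apply HeightOneSpectrum.ext
    ext a
    rw [← hW2, h]
  have e1 : {r : 𝓞 F →+* (𝓞 (AlgebraicClosure K) ⧸ Q) //
      (∃ i : F →ₐ[K] AlgebraicClosure K, rd Q i = r) ∧
        ∀ a, r a ^ (Ideal.absNorm v.asIdeal ^ n) = r a} ≃
      Σ w : {w // w ∈ above F v}, {r : 𝓞 F →+* (𝓞 (AlgebraicClosure K) ⧸ Q) //
      ((∃ i : F →ₐ[K] AlgebraicClosure K, rd Q i = r) ∧
        ∀ a, r a ^ (Ideal.absNorm v.asIdeal ^ n) = r a) ∧ ∀ a, r a = 0 ↔ a ∈ w.1.asIdeal} :=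
    { toFun := fun r => ⟨⟨W r, mem_above.2 (hW1 r)⟩, ⟨r.1, r.2, hW2 r⟩⟩
      invFun := fun x => ⟨x.2.1, x.2.2.1⟩
      left_inv := fun r => rfl
      right_inv := by
        rintro ⟨⟨w, hw⟩, ⟨r, hr1, hr2⟩⟩
        obtain rfl := hWu ⟨r, hr1⟩ w hr2
        rfl }
  have hfin : ∀ w : {w // w ∈ above F v}, Finite {r : 𝓞 F →+* (𝓞 (AlgebraicClosure K) ⧸ Q) //
      ((∃ i : F →ₐ[K] AlgebraicClosure K, rd Q i = r) ∧
        ∀ a, r a ^ (Ideal.absNorm v.asIdeal ^ n) = r a) ∧ ∀ a, r a = 0 ↔ a ∈ w.1.asIdeal} := by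
    intro w
    refine Finite.of_surjective (α := {i : F →ₐ[K] AlgebraicClosure K //
      ((∃ j : F →ₐ[K] AlgebraicClosure K, rd Q j = rd Q i) ∧
        ∀ a, rd Q i a ^ (Ideal.absNorm v.asIdeal ^ n) = rd Q i a) ∧
          ∀ a, rd Q i a = 0 ↔ a ∈ w.1.asIdeal}) (fun i => ⟨rd Q i.1, i.2⟩) ?_
    rintro ⟨r, ⟨⟨i, rfl⟩, h1⟩, h2⟩
    exact ⟨⟨i, ⟨⟨i, rfl⟩, h1⟩, h2⟩, rfl⟩
  rw [Nat.card_congr e1, Nat.card_sigma, Finset.sum_coe_sort (above F v) (fun w =>
    Nat.card {r : 𝓞 F →+* (𝓞 (AlgebraicClosure K) ⧸ Q) //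
      ((∃ i : F →ₐ[K] AlgebraicClosure K, rd Q i = r) ∧
        ∀ a, r a ^ (Ideal.absNorm v.asIdeal ^ n) = r a) ∧ ∀ a, r a = 0 ↔ a ∈ w.asIdeal})]

end

section
variable {K : Type} [Field K] [NumberField K]

/-- the inertia group of a prime of the algebraic integers -/
def In (Q : Ideal (𝓞 (AlgebraicClosure K))) : Subgroup (GK K) where
  carrier := {τ | ∀ x : 𝓞 (AlgebraicClosure K), τ • x - x ∈ Q}
  one_mem' := fun x => by rw [one_smul, sub_self]; exact Q.zero_mem
  mul_mem' := by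
    intro a b ha hb x
    have h1 := Q.add_mem (ha (b • x)) (hb x)
    rwa [sub_add_sub_cancel, ← mul_smul] at h1
  inv_mem' := by
    intro a ha x
    have h1 := Q.neg_mem (ha (a⁻¹ • x))
    rwa [smul_inv_smul, neg_sub] at h1

variable {ι : Type} [Fintype ι]

/-- **The count in a relation.** -/
theorem rel_count {X : ι → Ext K} {n : ι → ℤ} (h : Rel X n) (v : HeightOneSpectrum (𝓞 K))
    (m : ℕ) : ∑ j, n j * ((∑ w ∈ above (X j).F v,
      if rdeg K w ∣ m then rdeg K w else 0 : ℕ) : ℤ) = 0 := by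
  obtain ⟨σ, Q, hQm, hQv, hQ⟩ := Pool.Agent.W401.Frob.exists_frob v
  have hQp : Q.IsPrime := hQm.isPrime
  have hfe : ∀ j, Finite ((X j).F →ₐ[K] AlgebraicClosure K) := fun j => inferInstance
  let _ : ∀ j, Fintype ((X j).F →ₐ[K] AlgebraicClosure K) := fun j => Fintype.ofFinite _
  let P : GK K →* ((j : ι) → Equiv.Perm ((X j).F →ₐ[K] AlgebraicClosure K)) :=
    Pi.monoidHom fun j => act K (X j).F
  let A := (In Q).map P
  have hA : Finite A := inferInstance
  let _ : Fintype A := Fintype.ofFinite A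
  have hex : ∀ u : A, ∃ τ : GK K, τ ∈ In Q ∧ P τ = u.1 := fun u => u.2
  choose τ hτ hτ' using hex
  let ψ : ∀ j, A →* Equiv.Perm ((X j).F →ₐ[K] AlgebraicClosure K) := fun j =>
    (Pi.evalMonoidHom _ j).comp A.subtype
  have hψ : ∀ j (u : A), ψ j u = act K (X j).F (τ u) := by
    intro j u
    change u.1 j = _
    rw [← hτ' u]
    rfl
  have hb : ∀ j, ∑ u : A, Nat.card {x : (X j).F →ₐ[K] AlgebraicClosure K //
      ψ j u (act K (X j).F (σ ^ m) x) = x} =
      Nat.card A * ∑ w ∈ above (X j).F v, if rdeg K w ∣ m then rdeg K w else 0 := by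
    intro j
    rw [← card_redn v σ hQm hQv hQ m]
    refine burn (ψ j) (rd Q) (act K (X j).F (σ ^ m))
      (fun r => ∀ a, r a ^ (Ideal.absNorm v.asIdeal ^ m) = r a) (fun x y => ?_) (fun x => ?_)
    · rw [rd_eq_iff]
      constructor
      · intro h1
        obtain ⟨ρ, hρ, hρ'⟩ := exists_inert hQm x y h1
        refine ⟨⟨P ρ, ρ, hρ', rfl⟩, ?_⟩
        exact hρ
      · rintro ⟨u, hu⟩ a
        rw [hψ] at hu
        rw [← hu, act_apply, ← smul_oi]
        have h1 := Q.neg_mem (hτ u (oi x a))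
        rwa [neg_sub] at h1
    · constructor
      · intro h1 a
        rw [← rd_frob hQ, h1]
      · intro h1
        ext a
        rw [rd_frob hQ, h1]
  have hz : ∑ j, n j * ((∑ u : A, Nat.card {x : (X j).F →ₐ[K] AlgebraicClosure K //
      ψ j u (act K (X j).F (σ ^ m) x) = x} : ℕ) : ℤ) = 0 := by
    have h1 : ∀ j (u : A), Nat.card {x : (X j).F →ₐ[K] AlgebraicClosure K //
        ψ j u (act K (X j).F (σ ^ m) x) = x} = fixn K (X j).F (τ u * σ ^ m) := by
      intro j u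
      unfold fixn
      rw [map_mul, hψ]
      rfl
    simp only [h1, Nat.cast_sum, Finset.mul_sum]
    rw [Finset.sum_comm]
    exact Finset.sum_eq_zero fun u _ => h _
  have h2 : ∑ j, n j * ((Nat.card A * ∑ w ∈ above (X j).F v,
      if rdeg K w ∣ m then rdeg K w else 0 : ℕ) : ℤ) = 0 := by
    rw [← hz]
    exact Finset.sum_congr rfl fun j _ => by rw [hb j]
  have h3 : ((Nat.card A : ℕ) : ℤ) * ∑ j, n j * ((∑ w ∈ above (X j).F v,
      if rdeg K w ∣ m then rdeg K w else 0 : ℕ) : ℤ) = 0 := by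
    rw [← h2, Finset.mul_sum]
    refine Finset.sum_congr rfl fun j _ => ?_
    rw [Nat.cast_mul]
    ring
  have h4 : ((Nat.card A : ℕ) : ℤ) ≠ 0 := by
    have : 0 < Nat.card A := Nat.card_pos
    exact_mod_cast this.ne'
  exact (mul_eq_zero.1 h3).resolve_left h4

/-- **The primes above `v` in a relation, for all primes `v`.** -/
theorem rel_degrees_all {X : ι → Ext K} {n : ι → ℤ} (h : Rel X n) (v : HeightOneSpectrum (𝓞 K))
    (d : ℕ) : ∑ j, n j * (((above (X j).F v).filter fun w => rdeg K w = d).card : ℤ) = 0 := by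
  have h1 : ∀ m : ℕ, ∑ j, n j * ((∑ w ∈ above (X j).F v,
      if rdeg K w ∣ m then rdeg K w else 0 : ℕ) : ℤ) = 0 := fun m => rel_count h v m
  induction d using Nat.strong_induction_on with
  | _ d ih =>
    rcases Nat.eq_zero_or_pos d with rfl | hd
    · refine Finset.sum_eq_zero fun j _ => ?_
      rw [Finset.filter_false_of_mem, Finset.card_empty]
      · simp
      · intro w _ hw
        exact (rdeg_pos (K := K) w).ne' hw
    · have h2 : ∀ j, ((∑ w ∈ above (X j).F v, if rdeg K w ∣ d then rdeg K w else 0 : ℕ) : ℤ) =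
          ∑ m ∈ d.divisors, (m : ℤ) * (((above (X j).F v).filter fun w => rdeg K w = m).card : ℤ) := by
        intro j
        rw [← Finset.sum_filter, ← Finset.sum_fiberwise_of_maps_to (s := (above (X j).F v).filter
          fun w => rdeg K w ∣ d) (t := d.divisors) (g := fun w => rdeg K w) (fun w hw => by
            rw [Nat.mem_divisors]
            exact ⟨(Finset.mem_filter.1 hw).2, hd.ne'⟩)]
        push_cast
        refine Finset.sum_congr rfl fun m hm => ?_
        rw [Finset.filter_filter, Finset.sum_congr rfl (g := fun _ => (m : ℤ)), Finset.sum_const,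
          nsmul_eq_mul, mul_comm]
        · congr 3
          ext w
          simp only [Finset.mem_filter]
          constructor
          · rintro ⟨h3, _, h4⟩
            exact ⟨h3, h4⟩
          · rintro ⟨h3, h4⟩
            exact ⟨h3, by rw [h4]; exact Nat.dvd_of_mem_divisors hm, h4⟩
        · intro w hw
          rw [(Finset.mem_filter.1 hw).2.2]
      have h3 := h1 d
      simp only [h2, Finset.mul_sum] at h3
      rw [Finset.sum_comm, ← Nat.cons_self_properDivisors hd.ne', Finset.sum_cons] at h3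
      have h4 : ∑ m ∈ d.properDivisors, ∑ j, n j * ((m : ℤ) *
          (((above (X j).F v).filter fun w => rdeg K w = m).card : ℤ)) = 0 := by
        refine Finset.sum_eq_zero fun m hm => ?_
        have h5 := ih m (Nat.mem_properDivisors.1 hm).2
        have h6 : ∑ j, n j * ((m : ℤ) * (((above (X j).F v).filter fun w => rdeg K w = m).card : ℤ)) =
            (m : ℤ) * ∑ j, n j * (((above (X j).F v).filter fun w => rdeg K w = m).card : ℤ) := by
          rw [Finset.mul_sum]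
          exact Finset.sum_congr rfl fun j _ => by ring
        rw [h6, h5, mul_zero]
      rw [h4, add_zero] at h3
      have h6 : ∑ j, n j * ((d : ℤ) * (((above (X j).F v).filter fun w => rdeg K w = d).card : ℤ)) =
          (d : ℤ) * ∑ j, n j * (((above (X j).F v).filter fun w => rdeg K w = d).card : ℤ) := by
        rw [Finset.mul_sum]
        exact Finset.sum_congr rfl fun j _ => by ring
      rw [h6] at h3
      have hd' : (d : ℤ) ≠ 0 := by exact_mod_cast hd.ne'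
      exact (mul_eq_zero.1 h3).resolve_left hd'

/-- the same for an arbitrary condition on the degrees -/
theorem rel_cond {X : ι → Ext K} {n : ι → ℤ} (h : Rel X n) (v : HeightOneSpectrum (𝓞 K))
    (C : ℕ → Prop) :
    ∑ j, n j * (((above (X j).F v).filter fun w => C (rdeg K w)).card : ℤ) = 0 := by
  have h1 := rel_sum (fun d => rel_degrees_all h v d) (fun d => if C d then 1 else 0)
  have h2 : ∀ j, ∑ w ∈ above (X j).F v, (if C (rdeg K w) then (1 : ℂ) else 0) =
      (((above (X j).F v).filter fun w => C (rdeg K w)).card : ℂ) := by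
    intro j
    rw [Finset.sum_boole]
  simp only [h2] at h1
  exact_mod_cast h1

end

end Pool.Agent.Q92.PA
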