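import Pool.Agent.Q5.BR.Rel
import Pool.Agent.Q5.VL.Up

/-! The embeddings of a number field in the algebraic numbers with the same reduction modulo a prime
form one orbit of the inertia group; no condition on the ramification. -/

set_option autoImplicit false
set_option linter.unusedSectionVars false

namespace Pool.Agent.Q92.PA

open NumberField IsDedekindDomain Pool.Agent.W353.NF Pool.Agent.W401.Cheb Pool.Agent.Q5.BR
open scoped Pointwise

section gen
variable {F Ω : Type} [Field F] [NumberField F] [Field Ω] [Algebra F Ω] [IsGalois F Ω]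

theorem g_coe (σ : Gal(Ω/F)) (x : 𝓞 Ω) : ((σ • x : 𝓞 Ω) : Ω) = σ x := rfl

theorem g_smulComm : SMulCommClass (Gal(Ω/F)) (𝓞 F) (𝓞 Ω) := by
  refine ⟨fun g a b => ?_⟩
  apply RingOfIntegers.ext
  rw [g_coe, Algebra.smul_def, Algebra.smul_def]
  show g ((algebraMap (𝓞 F) (𝓞 Ω) a : 𝓞 Ω) * (b : Ω)) = (algebraMap (𝓞 F) (𝓞 Ω) a : 𝓞 Ω) * g b
  rw [map_mul]
  congr 1
  exact g.commutes (a : F)

theorem g_isInv : Algebra.IsInvariant (𝓞 F) (𝓞 Ω) (Gal(Ω/F)) := by
  refine ⟨fun b hb => ?_⟩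
  have h1 : (b : Ω) ∈ (⊥ : IntermediateField F Ω) := by
    rw [InfiniteGalois.mem_bot_iff_fixed]
    intro g
    exact congrArg (fun z : (𝓞 Ω) => (z : Ω)) (hb g)
  obtain ⟨k, hk⟩ := IntermediateField.mem_bot.1 h1
  have h2 : IsIntegral ℤ k := by
    have h3 : IsIntegral ℤ (algebraMap F Ω k) := by
      rw [hk]
      exact b.2
    exact (isIntegral_algebraMap_iff (algebraMap F Ω).injective).1 h3
  refine ⟨⟨k, h2⟩, ?_⟩
  apply RingOfIntegers.ext
  exact hk

/-- the Galois group is transitive on the primes above a prime -/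
theorem g_conj (Q Q' : Ideal (𝓞 Ω)) (hQ : Q.IsPrime) (hQ' : Q'.IsPrime)
    (h : Q.comap (algebraMap (𝓞 F) (𝓞 Ω)) = Q'.comap (algebraMap (𝓞 F) (𝓞 Ω))) :
    ∃ g : Gal(Ω/F), ∀ x : 𝓞 Ω, g • x ∈ Q' ↔ x ∈ Q := by
  have : SMulCommClass (Gal(Ω/F)) (𝓞 F) (𝓞 Ω) := g_smulComm
  have : Algebra.IsInvariant (𝓞 F) (𝓞 Ω) (Gal(Ω/F)) := g_isInv
  let _ : TopologicalSpace (𝓞 Ω) := ⊥
  have : DiscreteTopology (𝓞 Ω) := ⟨rfl⟩
  have : ContinuousSMul (Gal(Ω/F)) (𝓞 Ω) := by
    rw [continuousSMul_iff_stabilizer_isOpen]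
    intro x
    have h1 := stabilizer_isOpen_of_isIntegral (K := F) (x : Ω)
    have h2 : (MulAction.stabilizer (Gal(Ω/F)) x : Set (Gal(Ω/F))) =
        (MulAction.stabilizer (Gal(Ω/F)) (x : Ω) : Set (Gal(Ω/F))) := by
      ext g
      rw [SetLike.mem_coe, SetLike.mem_coe, MulAction.mem_stabilizer_iff,
        MulAction.mem_stabilizer_iff]
      constructor
      · intro h
        exact congrArg (fun z : (𝓞 Ω) => (z : Ω)) h
      · intro h
        exact RingOfIntegers.ext h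
    rw [h2]
    exact h1
  obtain ⟨g, hg⟩ := Algebra.IsInvariant.exists_smul_of_under_eq_of_profinite (A := 𝓞 F)
    (G := Gal(Ω/F)) Q Q' h
  refine ⟨g, fun x => ?_⟩
  rw [hg, Ideal.mem_pointwise_smul_iff_inv_smul_mem, inv_smul_smul]

/-- the decomposition group maps onto the automorphisms of the residue field -/
theorem g_res (Q : Ideal (𝓞 Ω)) (hQ : Q.IsMaximal) (f : (𝓞 Ω ⧸ Q) ≃+* (𝓞 Ω ⧸ Q))
    (hf : ∀ a : 𝓞 F, f (Ideal.Quotient.mk Q (algebraMap (𝓞 F) (𝓞 Ω) a)) =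
      Ideal.Quotient.mk Q (algebraMap (𝓞 F) (𝓞 Ω) a)) :
    ∃ g : Gal(Ω/F), ∀ x : 𝓞 Ω, Ideal.Quotient.mk Q (g • x) = f (Ideal.Quotient.mk Q x) := by
  have : SMulCommClass (Gal(Ω/F)) (𝓞 F) (𝓞 Ω) := g_smulComm
  have : Algebra.IsInvariant (𝓞 F) (𝓞 Ω) (Gal(Ω/F)) := g_isInv
  let _ : TopologicalSpace (𝓞 Ω) := ⊥
  have : DiscreteTopology (𝓞 Ω) := ⟨rfl⟩
  have : ContinuousSMul (Gal(Ω/F)) (𝓞 Ω) := by
    rw [continuousSMul_iff_stabilizer_isOpen]
    intro x
    have h1 := stabilizer_isOpen_of_isIntegral (K := F) (x : Ω)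
    have h2 : (MulAction.stabilizer (Gal(Ω/F)) x : Set (Gal(Ω/F))) =
        (MulAction.stabilizer (Gal(Ω/F)) (x : Ω) : Set (Gal(Ω/F))) := by
      ext g
      rw [SetLike.mem_coe, SetLike.mem_coe, MulAction.mem_stabilizer_iff,
        MulAction.mem_stabilizer_iff]
      constructor
      · intro h
        exact congrArg (fun z : (𝓞 Ω) => (z : Ω)) h
      · intro h
        exact RingOfIntegers.ext h
    rw [h2]
    exact h1
  let P : Ideal (𝓞 F) := Q.comap (algebraMap (𝓞 F) (𝓞 Ω))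
  have hlo : Q.LiesOver P := ⟨rfl⟩
  let f' : (𝓞 Ω ⧸ Q) ≃ₐ[𝓞 F ⧸ P] (𝓞 Ω ⧸ Q) := AlgEquiv.ofRingEquiv (f := f) (by
    intro x
    obtain ⟨a, rfl⟩ := Ideal.Quotient.mk_surjective x
    exact hf a)
  obtain ⟨g, hg⟩ := Ideal.Quotient.stabilizerHom_surjective_of_profinite (G := Gal(Ω/F)) P Q f'
  refine ⟨g.1, fun x => ?_⟩
  have h1 := DFunLike.congr_fun hg (Ideal.Quotient.mk Q x)
  rw [Ideal.Quotient.stabilizerHom_apply] at h1
  exact h1

end gen

section
variable {K F : Type} [Field K] [NumberField K] [Field F] [NumberField F] [Algebra K F]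

/-- **The inertia group is transitive on the embeddings with the same reduction.** -/
theorem exists_inert {Q : Ideal (𝓞 (AlgebraicClosure K))} (hQ : Q.IsMaximal)
    (i j : F →ₐ[K] AlgebraicClosure K) (h : ∀ a : 𝓞 F, oi i a - oi j a ∈ Q) :
    ∃ σ : GK K, act K F σ i = j ∧ ∀ x : 𝓞 (AlgebraicClosure K), σ • x - x ∈ Q := by
  classical
  have hQp := hQ.isPrime
  obtain ⟨ρ, hρ⟩ := Pool.Agent.Q5.VL.exists_conj i j
  let _ : Algebra F (AlgebraicClosure K) := i.toRingHom.toAlgebra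
  have htow : IsScalarTower K F (AlgebraicClosure K) :=
    IsScalarTower.of_algebraMap_eq fun x => (i.commutes x).symm
  have hint : Algebra.IsAlgebraic F (AlgebraicClosure K) :=
    Algebra.IsAlgebraic.tower_top (K := K) F
  have hcl : IsAlgClosure F (AlgebraicClosure K) := ⟨inferInstance, hint⟩
  have hgal : IsGalois F (AlgebraicClosure K) := IsAlgClosure.isGalois F (AlgebraicClosure K)
  have halg : ∀ a : 𝓞 F, algebraMap (𝓞 F) (𝓞 (AlgebraicClosure K)) a = oi i a := fun a => rfl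
  have hρi : ∀ a : 𝓞 F, ρ • oi i a = oi j a := by
    intro a
    rw [smul_oi, hρ]
  -- the prime `ρ⁻¹ Q`
  let Q' : Ideal (𝓞 (AlgebraicClosure K)) := Pool.Agent.W401.Frob.tr ρ⁻¹ Q
  have hmem : ∀ x, x ∈ Q' ↔ ρ • x ∈ Q := by
    intro x
    rw [Pool.Agent.W401.Frob.mem_tr, inv_inv]
  have hQ'm : Q'.IsMaximal := Pool.Agent.W401.Frob.tr_max _ _ hQ
  obtain ⟨g, hg⟩ := g_conj (F := F) Q Q' hQp hQ'm.isPrime (by
    ext a
    rw [Ideal.mem_comap, Ideal.mem_comap, hmem, halg, hρi]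
    have h1 := h a
    constructor
    · intro h2
      have h3 := Q.sub_mem h2 h1
      rwa [sub_sub_cancel] at h3
    · intro h2
      have h3 := Q.add_mem h1 h2
      rwa [sub_add_cancel] at h3)
  -- `s = ρ g` preserves `Q`
  let s : GK K := ρ * AlgEquiv.restrictScalars K g
  have hgs : ∀ x : 𝓞 (AlgebraicClosure K), (AlgEquiv.restrictScalars K g : GK K) • x = g • x :=
    fun x => rfl
  have hs : ∀ x, s • x ∈ Q ↔ x ∈ Q := by
    intro x
    change (ρ * AlgEquiv.restrictScalars K g) • x ∈ Q ↔ _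
    rw [mul_smul, ← hmem, hgs, hg]
  have hsi : ∀ a : 𝓞 F, s • oi i a = oi j a := by
    intro a
    change (ρ * AlgEquiv.restrictScalars K g) • oi i a = _
    have h1 : (AlgEquiv.restrictScalars K g : GK K) • oi i a = oi i a := by
      apply RingOfIntegers.ext
      exact g.commutes (a : F)
    rw [mul_smul, h1, hρi]
  -- the automorphism of the residue field
  let S : 𝓞 (AlgebraicClosure K) ≃+* 𝓞 (AlgebraicClosure K) :=
    MulSemiringAction.toRingEquiv (GK K) (𝓞 (AlgebraicClosure K)) s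
  have hSQ : Q = Q.map (S : 𝓞 (AlgebraicClosure K) →+* 𝓞 (AlgebraicClosure K)) := by
    apply le_antisymm
    · intro x hx
      have h1 : S (s⁻¹ • x) = x := smul_inv_smul s x
      rw [← h1]
      refine Ideal.mem_map_of_mem _ ?_
      rw [← hs, smul_inv_smul]
      exact hx
    · rw [Ideal.map_le_iff_le_comap]
      intro x hx
      exact (hs x).2 hx
  let f : (𝓞 (AlgebraicClosure K) ⧸ Q) ≃+* (𝓞 (AlgebraicClosure K) ⧸ Q) :=
    Ideal.quotientEquiv Q Q S hSQ
  have hf : ∀ x, f (Ideal.Quotient.mk Q x) = Ideal.Quotient.mk Q (s • x) := fun x => rfl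
  obtain ⟨t, ht⟩ := g_res (F := F) Q hQ f (by
    intro a
    rw [hf, halg, hsi]
    exact ((Ideal.Quotient.mk_eq_mk_iff_sub_mem _ _).2 (h a)).symm)
  let t' : GK K := AlgEquiv.restrictScalars K t
  have htt : ∀ x : 𝓞 (AlgebraicClosure K), t' • x = t • x := fun x => rfl
  refine ⟨s * t'⁻¹, ?_, fun x => ?_⟩
  · apply AlgHom.ext
    intro z
    rw [act_apply]
    change s (t'⁻¹ (i z)) = j z
    have h1 : t' (i z) = i z := t.commutes z
    have h2 : t'⁻¹ (i z) = i z := by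
      conv_lhs => rw [← h1]
      exact t'.symm_apply_apply (i z)
    rw [h2]
    change ρ (g (i z)) = j z
    have h3 : g (i z) = i z := g.commutes z
    rw [h3]
    exact DFunLike.congr_fun hρ z
  · rw [mul_smul, ← Ideal.Quotient.mk_eq_mk_iff_sub_mem, ← hf, ← ht, ← htt, smul_inv_smul]

end

end Pool.Agent.Q92.PA
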