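import Pool.Agent.Q92.PA.Split
import Pool.Agent.Q5.DP.Disc
import Pool.Agent.Q5.VL.Up
import Pool.Agent.Q5.BR.Bsd

/-! The sum of the rank, the number of the infinite places and the number of the primes of split
multiplicative reduction, in a relation between permutation characters. -/

set_option autoImplicit false
set_option linter.unusedSectionVars false

namespace Pool.Agent.Q92.PA

open NumberField IsDedekindDomain Filter Pool.Agent.W401.Cheb Pool.Agent.W353.NF Pool.Agent.Q5.BR
open scoped Classical

section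
variable (F : Type) [Field F] [NumberField F]

/-- the number of the infinite places -/
noncomputable def pl : ℕ := Nat.card (InfinitePlace F)

theorem two_pl : 2 * pl F = Nat.card {σ : F →+* ℂ // ComplexEmbedding.conjugate σ = σ} +
    Nat.card (F →+* ℂ) := by
  have h1 := InfinitePlace.card_eq_nrRealPlaces_add_nrComplexPlaces (K := F)
  have h2 := InfinitePlace.card_add_two_mul_card_eq_rank F
  have h3 := InfinitePlace.card_real_embeddings F
  have h4 := NumberField.Embeddings.card F ℂ
  have h5 : Nat.card {σ : F →+* ℂ // ComplexEmbedding.conjugate σ = σ} =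
      InfinitePlace.nrRealPlaces F := by
    rw [← h3, ← Nat.card_eq_fintype_card]
    rfl
  unfold pl
  rw [h5, Nat.card_eq_fintype_card, Nat.card_eq_fintype_card, h4, ← h2, h1]
  ring

end

section
variable {F : Type} [Field F] [NumberField F] {ι : Type} [Fintype ι]

/-- **The relation between the numbers of the infinite places.** -/
theorem pl_rel {Y : ι → Ext F} {n : ι → ℤ} {m : ℤ}
    (h : ∀ τ : GK F, ∑ j, n j * (fixn F (Y j).F τ : ℤ) = m) :
    ∑ j, n j * (pl (Y j).F : ℤ) = m * (pl F : ℤ) := by
  have h0 := Pool.Agent.Q5.VL.rel_up (K := ℚ) (F := F) h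
  let Z : Option ι → Ext ℚ := fun o => match o with
    | none => Ext.mk F
    | some j => Ext.mk (Y j).F
  let c : Option ι → ℤ := fun o => match o with
    | none => -m
    | some j => n j
  have hz : ∀ σ : GK ℚ, ∑ o, c o * (fixn ℚ (Z o).F σ : ℤ) = 0 := by
    intro σ
    rw [Fintype.sum_option]
    change -m * (fixn ℚ F σ : ℤ) + ∑ j, n j * (fixn ℚ (Y j).F σ : ℤ) = 0
    rw [h0 σ]
    ring
  have h1 := Pool.Agent.Q5.DP.real_rel (K := ℚ) (Module.finrank_self ℚ) hz
  have h2 := Pool.Agent.Q5.DP.deg_rel (K := ℚ) (Module.finrank_self ℚ) hz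
  have h3 : ∑ o, c o * (pl (Z o).F : ℤ) = 0 := by
    have h4 : 2 * ∑ o, c o * (pl (Z o).F : ℤ) = 0 := by
      have h5 : ∀ o, 2 * (c o * (pl (Z o).F : ℤ)) =
          c o * (Nat.card {σ : (Z o).F →+* ℂ // ComplexEmbedding.conjugate σ = σ} : ℤ) +
            c o * (Nat.card ((Z o).F →+* ℂ) : ℤ) := by
        intro o
        have h6 : (2 * pl (Z o).F : ℤ) =
            (Nat.card {σ : (Z o).F →+* ℂ // ComplexEmbedding.conjugate σ = σ} : ℤ) +
              (Nat.card ((Z o).F →+* ℂ) : ℤ) := by
          exact_mod_cast two_pl (Z o).F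
        linear_combination (c o) * h6
      rw [Finset.mul_sum, Finset.sum_congr rfl fun o _ => h5 o, Finset.sum_add_distrib, h1, h2,
        add_zero]
    linarith
  rw [Fintype.sum_option] at h3
  change -m * (pl F : ℤ) + ∑ j, n j * (pl (Y j).F : ℤ) = 0 at h3
  linarith

/-- the rank, plus the number of the infinite places, plus the number of the primes of split
multiplicative reduction -/
noncomputable def Dd (E : WeierstrassCurve F) : ℕ := rk E + pl F + spl E

/-- **The relation.** -/
theorem Dd_rel {Y : ι → Ext F} {n : ι → ℤ} {m : ℤ}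
    (h : ∀ τ : GK F, ∑ j, n j * (fixn F (Y j).F τ : ℤ) = m) {E : WeierstrassCurve F}
    (hE : E.IsElliptic) (hs : Semistable E) :
    ∑ j, n j * (Dd (E.map (algebraMap F (Y j).F)) : ℤ) = m * (Dd E : ℤ) := by
  have h1 := pl_rel h
  have h2 : ∑ j, n j * (rk (E.map (algebraMap F (Y j).F)) : ℤ) = m * rk E := by
    have h3 := rank_relation h hE
    have h4 : (Module.finrank ℤ (E.baseChange F).toAffine.Point : ℤ) = (rk E : ℤ) := by
      rw [← rk_baseChange E]
      rfl
    rw [h4] at h3
    exact h3
  have h3 : ∑ j, n j * (spl (E.map (algebraMap F (Y j).F)) : ℤ) = m * spl E := by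
    let Z : Option ι → Ext F := fun o => match o with
      | none => Ext.mk F
      | some j => Ext.mk (Y j).F
    let c : Option ι → ℤ := fun o => match o with
      | none => -m
      | some j => n j
    have hz : Rel Z c := by
      intro σ
      rw [Fintype.sum_option]
      change -m * (fixn F F σ : ℤ) + ∑ j, n j * (fixn F (Y j).F σ : ℤ) = 0
      rw [h σ, fixn_self]
      ring
    have h4 := spl_rel hz hE hs
    rw [Fintype.sum_option] at h4
    change -m * (spl (E.map (algebraMap F F)) : ℤ) +
      ∑ j, n j * (spl (E.map (algebraMap F (Y j).F)) : ℤ) = 0 at h4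
    have h5 : E.map (algebraMap F F) = E := by
      rw [Algebra.algebraMap_self, WeierstrassCurve.map_id]
    rw [h5] at h4
    linarith
  unfold Dd
  push_cast
  have h4 : ∀ j, n j * ((rk (E.map (algebraMap F (Y j).F)) : ℤ) + (pl (Y j).F : ℤ) +
      (spl (E.map (algebraMap F (Y j).F)) : ℤ)) = n j * (rk (E.map (algebraMap F (Y j).F)) : ℤ) +
        n j * (pl (Y j).F : ℤ) + n j * (spl (E.map (algebraMap F (Y j).F)) : ℤ) := fun j => by ring
  rw [Finset.sum_congr rfl fun j _ => h4 j, Finset.sum_add_distrib, Finset.sum_add_distrib, h1, h2,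
    h3]
  ring

end

end Pool.Agent.Q92.PA
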