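import Pool.Agent.Q92.PA.Red

/-! The node of a Weierstrass cubic: the singular point and its tangents. -/

set_option autoImplicit false
set_option linter.unusedSectionVars false

namespace Pool.Agent.Q92.PA

open NumberField IsDedekindDomain Polynomial

section field
variable {k : Type} [Field k]

/-- the singular point of a cubic with vanishing discriminant and `c₄ ≠ 0` -/
theorem exists_node (V : WeierstrassCurve k) (hΔ : V.Δ = 0) (h4 : V.c₄ ≠ 0) :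
    ∃ x y : k, V.c₄ * x = 18 * V.b₆ - V.b₂ * V.b₄ ∧
      y ^ 2 + V.a₁ * x * y + V.a₃ * y - (x ^ 3 + V.a₂ * x ^ 2 + V.a₄ * x + V.a₆) = 0 ∧
      2 * y + V.a₁ * x + V.a₃ = 0 ∧
      V.a₁ * y - (3 * x ^ 2 + 2 * V.a₂ * x + V.a₄) = 0 := by
  set X : k := 18 * V.b₆ - V.b₂ * V.b₄ with hX
  set Y : k := 3 * V.a₁ * V.a₃ ^ 2 - 36 * V.a₁ * V.a₆ + V.a₁ ^ 3 * V.a₄ + 4 * V.a₁ * V.a₂ * V.a₄ -
    2 * V.a₁ ^ 2 * V.a₂ * V.a₃ - 8 * V.a₂ ^ 2 * V.a₃ + 24 * V.a₃ * V.a₄ with hY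
  have e1 : 2 * Y + V.a₁ * X + V.a₃ * V.c₄ = 0 := by
    rw [hX, hY]
    simp only [WeierstrassCurve.c₄, WeierstrassCurve.b₂, WeierstrassCurve.b₄, WeierstrassCurve.b₆]
    ring
  have e2 : V.a₁ * Y * V.c₄ - (3 * X ^ 2 + 2 * V.a₂ * X * V.c₄ + V.a₄ * V.c₄ ^ 2) = 36 * V.Δ := by
    rw [hX, hY]
    simp only [WeierstrassCurve.c₄, WeierstrassCurve.Δ, WeierstrassCurve.b₂, WeierstrassCurve.b₄,
      WeierstrassCurve.b₆, WeierstrassCurve.b₈]
    ring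
  have e3 : Y ^ 2 * V.c₄ + V.a₁ * X * Y * V.c₄ + V.a₃ * Y * V.c₄ ^ 2 -
      (X ^ 3 + V.a₂ * X ^ 2 * V.c₄ + V.a₄ * X * V.c₄ ^ 2 + V.a₆ * V.c₄ ^ 3) = -(V.c₆ * V.Δ) := by
    rw [hX, hY]
    simp only [WeierstrassCurve.c₄, WeierstrassCurve.c₆, WeierstrassCurve.Δ, WeierstrassCurve.b₂,
      WeierstrassCurve.b₄, WeierstrassCurve.b₆, WeierstrassCurve.b₈]
    ring
  rw [hΔ, mul_zero] at e2
  rw [hΔ, mul_zero, neg_zero] at e3
  refine ⟨X / V.c₄, Y / V.c₄, mul_div_cancel₀ _ h4, ?_, ?_, ?_⟩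
  · have h5 : (Y / V.c₄) ^ 2 + V.a₁ * (X / V.c₄) * (Y / V.c₄) + V.a₃ * (Y / V.c₄) -
        ((X / V.c₄) ^ 3 + V.a₂ * (X / V.c₄) ^ 2 + V.a₄ * (X / V.c₄) + V.a₆) =
        (Y ^ 2 * V.c₄ + V.a₁ * X * Y * V.c₄ + V.a₃ * Y * V.c₄ ^ 2 -
      (X ^ 3 + V.a₂ * X ^ 2 * V.c₄ + V.a₄ * X * V.c₄ ^ 2 + V.a₆ * V.c₄ ^ 3)) / V.c₄ ^ 3 := by
      field_simp
    rw [h5, e3, zero_div]
  · have h5 : 2 * (Y / V.c₄) + V.a₁ * (X / V.c₄) + V.a₃ =
        (2 * Y + V.a₁ * X + V.a₃ * V.c₄) / V.c₄ := by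
      field_simp
    rw [h5, e1, zero_div]
  · have h5 : V.a₁ * (Y / V.c₄) - (3 * (X / V.c₄) ^ 2 + 2 * V.a₂ * (X / V.c₄) + V.a₄) =
        (V.a₁ * Y * V.c₄ - (3 * X ^ 2 + 2 * V.a₂ * X * V.c₄ + V.a₄ * V.c₄ ^ 2)) / V.c₄ ^ 2 := by
      field_simp
    rw [h5, e2, zero_div]

/-- the invariants at a singular point -/
theorem node_inv (V : WeierstrassCurve k) {x y : k}
    (h1 : y ^ 2 + V.a₁ * x * y + V.a₃ * y - (x ^ 3 + V.a₂ * x ^ 2 + V.a₄ * x + V.a₆) = 0)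
    (h2 : 2 * y + V.a₁ * x + V.a₃ = 0)
    (h3 : V.a₁ * y - (3 * x ^ 2 + 2 * V.a₂ * x + V.a₄) = 0) :
    V.Δ = 0 ∧ V.c₄ * x = 18 * V.b₆ - V.b₂ * V.b₄ := by
  have ha3 : V.a₃ = -(2 * y + V.a₁ * x) := by linear_combination h2
  have ha4 : V.a₄ = V.a₁ * y - 3 * x ^ 2 - 2 * V.a₂ * x := by linear_combination -h3
  have ha6 : V.a₆ = y ^ 2 + V.a₁ * x * y + V.a₃ * y - x ^ 3 - V.a₂ * x ^ 2 - V.a₄ * x := by
    linear_combination -h1
  rw [ha3, ha4] at ha6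
  constructor
  · simp only [WeierstrassCurve.Δ, WeierstrassCurve.b₂, WeierstrassCurve.b₄, WeierstrassCurve.b₆,
      WeierstrassCurve.b₈]
    rw [ha6, ha4, ha3]
    ring
  · simp only [WeierstrassCurve.c₄, WeierstrassCurve.b₂, WeierstrassCurve.b₄, WeierstrassCurve.b₆]
    rw [ha6, ha4, ha3]
    ring

end field

section
variable {F : Type} [Field F] [NumberField F]

/-- the reduction of the equation `V` modulo `w` has a node `(x, y)` with a tangent of slope `t` -/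
def SplitNode (V : WeierstrassCurve (𝓞 F)) (w : HeightOneSpectrum (𝓞 F)) : Prop :=
  V.c₄ ∉ w.asIdeal ∧ ∃ x y t : 𝓞 F,
    y ^ 2 + V.a₁ * x * y + V.a₃ * y - (x ^ 3 + V.a₂ * x ^ 2 + V.a₄ * x + V.a₆) ∈ w.asIdeal ∧
    2 * y + V.a₁ * x + V.a₃ ∈ w.asIdeal ∧
    V.a₁ * y - (3 * x ^ 2 + 2 * V.a₂ * x + V.a₄) ∈ w.asIdeal ∧
    t ^ 2 + V.a₁ * t - (V.a₂ + 3 * x) ∈ w.asIdeal

theorem splitNode_iff (V : WeierstrassCurve (𝓞 F)) (w : HeightOneSpectrum (𝓞 F)) :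
    SplitNode V w ↔ V.Δ ∈ w.asIdeal ∧ V.c₄ ∉ w.asIdeal ∧ Tan V w := by
  have hwm := w.isMaximal
  let _ : Field (𝓞 F ⧸ w.asIdeal) := Ideal.Quotient.field w.asIdeal
  set m := Ideal.Quotient.mk w.asIdeal with hm
  have hz : ∀ a : 𝓞 F, a ∈ w.asIdeal ↔ m a = 0 := fun a => Ideal.Quotient.eq_zero_iff_mem.symm
  set W : WeierstrassCurve (𝓞 F ⧸ w.asIdeal) := V.map m with hW
  have h18 : m 18 = 18 := map_ofNat m 18
  constructor
  · rintro ⟨h4, x, y, t, h1, h2, h3, ht⟩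
    rw [hz, map_sub, map_add, map_add, map_mul, map_mul, map_mul, map_pow, map_add, map_add, map_add,
      map_mul, map_mul, map_pow, map_pow] at h1
    rw [hz, map_add, map_add, map_mul, map_mul, map_ofNat] at h2
    rw [hz, map_sub, map_add, map_add, map_mul, map_mul, map_mul, map_mul, map_pow, map_ofNat,
      map_ofNat] at h3
    rw [hz, map_sub, map_add, map_add, map_mul, map_mul, map_pow, map_ofNat] at ht
    obtain ⟨h5, h6⟩ := node_inv W h1 h2 h3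
    rw [hW, WeierstrassCurve.map_Δ] at h5
    rw [hW, WeierstrassCurve.map_c₄, WeierstrassCurve.map_b₆, WeierstrassCurve.map_b₂,
      WeierstrassCurve.map_b₄] at h6
    refine ⟨(hz _).2 h5, h4, m x, m t, ?_, ?_⟩
    · rw [h6, map_sub, map_mul, map_mul, h18]
    · exact sub_eq_zero.1 ht
  · rintro ⟨hΔ, h4, x', t', hx, ht⟩
    have h4' : W.c₄ ≠ 0 := by
      rw [hW, WeierstrassCurve.map_c₄]
      exact fun h => h4 ((hz _).2 h)
    obtain ⟨x₀, y₀, h0, h1, h2, h3⟩ := exists_node W (by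
      rw [hW, WeierstrassCurve.map_Δ]
      exact (hz _).1 hΔ) h4'
    have hxx : x' = x₀ := by
      refine mul_left_cancel₀ h4' ?_
      rw [h0, hW, WeierstrassCurve.map_c₄, WeierstrassCurve.map_b₆, WeierstrassCurve.map_b₂,
        WeierstrassCurve.map_b₄, hx, map_sub, map_mul, map_mul, h18]
    subst hxx
    obtain ⟨x, rfl⟩ := Ideal.Quotient.mk_surjective x'
    obtain ⟨y, rfl⟩ := Ideal.Quotient.mk_surjective y₀
    obtain ⟨t, rfl⟩ := Ideal.Quotient.mk_surjective t'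
    refine ⟨h4, x, y, t, ?_, ?_, ?_, ?_⟩
    · rw [hz, map_sub, map_add, map_add, map_mul, map_mul, map_mul, map_pow, map_add, map_add,
        map_add, map_mul, map_mul, map_pow, map_pow]
      exact h1
    · rw [hz, map_add, map_add, map_mul, map_mul, map_ofNat]
      exact h2
    · rw [hz, map_sub, map_add, map_add, map_mul, map_mul, map_mul, map_mul, map_pow, map_ofNat,
        map_ofNat]
      exact h3
    · rw [hz, map_sub, map_add, map_add, map_mul, map_mul, map_pow, map_ofNat]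
      exact sub_eq_zero.2 ht

/-- `E` has split multiplicative reduction at `w` -/
def SplitAt (E : WeierstrassCurve F) (w : HeightOneSpectrum (𝓞 F)) : Prop :=
  ∃ V, ModelOf E V ∧ SplitNode V w

/-- `E` has good or multiplicative reduction at all primes -/
def Semistable (E : WeierstrassCurve F) : Prop :=
  ∀ w : HeightOneSpectrum (𝓞 F), ∃ V, ModelOf E V ∧ (V.Δ ∉ w.asIdeal ∨ V.c₄ ∉ w.asIdeal)

/-- the number of the primes of split multiplicative reduction -/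
noncomputable def spl (E : WeierstrassCurve F) : ℕ :=
  Nat.card {w : HeightOneSpectrum (𝓞 F) // SplitAt E w}

end

end Pool.Agent.Q92.PA
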