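import Mathlib

/-! Split multiplicative reduction of Weierstrass equations over number fields: independence of the
equation, and the behaviour under finite extensions. -/

set_option autoImplicit false
set_option linter.unusedSectionVars false

namespace Pool.Agent.Q92.PA

open NumberField IsDedekindDomain Polynomial

attribute [local instance] Ideal.Quotient.field

section res
variable {F : Type} [Field F] [NumberField F] {w : HeightOneSpectrum (𝓞 F)}

/-- `z` is the residue of `x` modulo `w` -/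
def Rs (w : HeightOneSpectrum (𝓞 F)) (x : F) (z : 𝓞 F ⧸ w.asIdeal) : Prop :=
  ∃ a b : 𝓞 F, b ∉ w.asIdeal ∧ x * algebraMap (𝓞 F) F b = algebraMap (𝓞 F) F a ∧
    z * Ideal.Quotient.mk w.asIdeal b = Ideal.Quotient.mk w.asIdeal a

theorem mk_ne_zero {b : 𝓞 F} (h : b ∉ w.asIdeal) : Ideal.Quotient.mk w.asIdeal b ≠ 0 := fun h1 =>
  h (Ideal.Quotient.eq_zero_iff_mem.1 h1)

theorem mul_notMem {a b : 𝓞 F} (ha : a ∉ w.asIdeal) (hb : b ∉ w.asIdeal) : a * b ∉ w.asIdeal :=
  fun h => (w.isPrime.mem_or_mem h).elim ha hb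

theorem Rs.int (w : HeightOneSpectrum (𝓞 F)) (a : 𝓞 F) :
    Rs w (algebraMap (𝓞 F) F a) (Ideal.Quotient.mk w.asIdeal a) := by
  refine ⟨a, 1, fun h => w.isPrime.ne_top ((Ideal.eq_top_iff_one _).2 h), ?_, ?_⟩
  · rw [map_one, mul_one]
  · rw [map_one, mul_one]

theorem Rs.add {x y : F} {z t : 𝓞 F ⧸ w.asIdeal} (h : Rs w x z) (h' : Rs w y t) :
    Rs w (x + y) (z + t) := by
  obtain ⟨a, b, hb, h1, h2⟩ := h
  obtain ⟨a', b', hb', h1', h2'⟩ := h'
  refine ⟨a * b' + a' * b, b * b', mul_notMem hb hb', ?_, ?_⟩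
  · rw [map_mul, map_add, map_mul, map_mul]
    linear_combination (algebraMap (𝓞 F) F b') * h1 + (algebraMap (𝓞 F) F b) * h1'
  · rw [map_mul, map_add, map_mul, map_mul]
    linear_combination (Ideal.Quotient.mk w.asIdeal b') * h2 + (Ideal.Quotient.mk w.asIdeal b) * h2'

theorem Rs.mul {x y : F} {z t : 𝓞 F ⧸ w.asIdeal} (h : Rs w x z) (h' : Rs w y t) :
    Rs w (x * y) (z * t) := by
  obtain ⟨a, b, hb, h1, h2⟩ := h
  obtain ⟨a', b', hb', h1', h2'⟩ := h'
  refine ⟨a * a', b * b', mul_notMem hb hb', ?_, ?_⟩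
  · rw [map_mul, map_mul]
    linear_combination (y * (algebraMap (𝓞 F) F b')) * h1 + (algebraMap (𝓞 F) F a) * h1'
  · rw [map_mul, map_mul]
    linear_combination (t * (Ideal.Quotient.mk w.asIdeal b')) * h2 +
      (Ideal.Quotient.mk w.asIdeal a) * h2'

theorem Rs.unique {x : F} {z t : 𝓞 F ⧸ w.asIdeal} (h : Rs w x z) (h' : Rs w x t) : z = t := by
  obtain ⟨a, b, hb, h1, h2⟩ := h
  obtain ⟨a', b', hb', h1', h2'⟩ := h'
  have h3 : a * b' = a' * b := by
    apply FaithfulSMul.algebraMap_injective (𝓞 F) F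
    rw [map_mul, map_mul]
    linear_combination (algebraMap (𝓞 F) F b) * h1' - (algebraMap (𝓞 F) F b') * h1
  have h4 := congrArg (Ideal.Quotient.mk w.asIdeal) h3
  rw [map_mul, map_mul, ← h2, ← h2'] at h4
  have h5 : Ideal.Quotient.mk w.asIdeal b * Ideal.Quotient.mk w.asIdeal b' ≠ 0 :=
    mul_ne_zero (mk_ne_zero hb) (mk_ne_zero hb')
  refine mul_right_cancel₀ h5 ?_
  linear_combination h4

theorem Rs.exists {x : F} (hx : w.valuation F x ≤ 1) : ∃ z, Rs w x z := by
  obtain ⟨n, d, h⟩ := w.exists_primeCompl_mul_eq_of_integer x hx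
  refine ⟨Ideal.Quotient.mk w.asIdeal n / Ideal.Quotient.mk w.asIdeal d, n, d, d.2, h, ?_⟩
  exact div_mul_cancel₀ _ (mk_ne_zero d.2)

theorem Rs.natCast (n : ℕ) : Rs w (n : F) (n : 𝓞 F ⧸ w.asIdeal) := by
  have h := Rs.int w (n : 𝓞 F)
  rwa [map_natCast, map_natCast] at h

end res

section red
variable {F : Type} [Field F] [NumberField F]

/-- `V` is an equation of the curve `E` with integral coefficients -/
def ModelOf (E : WeierstrassCurve F) (V : WeierstrassCurve (𝓞 F)) : Prop :=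
  ∃ C : WeierstrassCurve.VariableChange F, C • E = V.map (algebraMap (𝓞 F) F)

/-- the tangents at the node of the reduction of `V` modulo `w` are rational -/
def Tan (V : WeierstrassCurve (𝓞 F)) (w : HeightOneSpectrum (𝓞 F)) : Prop :=
  ∃ x t : 𝓞 F ⧸ w.asIdeal,
    (Ideal.Quotient.mk w.asIdeal V.c₄) * x =
      Ideal.Quotient.mk w.asIdeal (18 * V.b₆ - V.b₂ * V.b₄) ∧
    t ^ 2 + Ideal.Quotient.mk w.asIdeal V.a₁ * t = Ideal.Quotient.mk w.asIdeal V.a₂ + 3 * x

/-- the change of variables between two models -/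
theorem change {E : WeierstrassCurve F} {V V' : WeierstrassCurve (𝓞 F)} (hV : ModelOf E V)
    (hV' : ModelOf E V') : ∃ C : WeierstrassCurve.VariableChange F,
      C • (V.map (algebraMap (𝓞 F) F)) = V'.map (algebraMap (𝓞 F) F) := by
  obtain ⟨C, hC⟩ := hV
  obtain ⟨C', hC'⟩ := hV'
  refine ⟨C' * C⁻¹, ?_⟩
  rw [← hC, ← hC', mul_smul, inv_smul_smul]

/-- the relation between the invariants -/
theorem inv_rel {E : WeierstrassCurve F} {V V' : WeierstrassCurve (𝓞 F)} (hV : ModelOf E V)
    (hV' : ModelOf E V') : V.c₄ ^ 3 * V'.Δ = V'.c₄ ^ 3 * V.Δ := by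
  obtain ⟨C, hC⟩ := change hV hV'
  have h4 := congrArg WeierstrassCurve.c₄ hC
  have hD := congrArg WeierstrassCurve.Δ hC
  rw [WeierstrassCurve.variableChange_c₄, WeierstrassCurve.map_c₄, WeierstrassCurve.map_c₄] at h4
  rw [WeierstrassCurve.variableChange_Δ, WeierstrassCurve.map_Δ, WeierstrassCurve.map_Δ] at hD
  apply FaithfulSMul.algebraMap_injective (𝓞 F) F
  rw [map_mul, map_mul, map_pow, map_pow, ← h4, ← hD]
  ring

theorem disc_inv {E : WeierstrassCurve F} {V V' : WeierstrassCurve (𝓞 F)} (hV : ModelOf E V)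
    (hV' : ModelOf E V') {w : HeightOneSpectrum (𝓞 F)} (h' : V'.Δ ∈ w.asIdeal)
    (h4' : V'.c₄ ∉ w.asIdeal) : V.Δ ∈ w.asIdeal := by
  have h1 := inv_rel hV hV'
  have h2 : V'.c₄ ^ 3 * V.Δ ∈ w.asIdeal := by
    rw [← h1]
    exact w.asIdeal.mul_mem_left _ h'
  rcases w.isPrime.mem_or_mem h2 with h3 | h3
  · exact absurd (w.isPrime.mem_of_pow_mem _ h3) h4'
  · exact h3

/-- **Independence of the equation.** -/
theorem tan_inv {E : WeierstrassCurve F} {V V' : WeierstrassCurve (𝓞 F)} (hV : ModelOf E V)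
    (hV' : ModelOf E V') {w : HeightOneSpectrum (𝓞 F)} (h4 : V.c₄ ∉ w.asIdeal)
    (h4' : V'.c₄ ∉ w.asIdeal) (hT : Tan V' w) : Tan V w := by
  obtain ⟨C, hC⟩ := change hV hV'
  set u : F := (C.u : F) with hu
  have hu0 : u ≠ 0 := C.u.ne_zero
  have hui : ((C.u⁻¹ : Fˣ) : F) = u⁻¹ := Units.val_inv_eq_inv_val _
  have e1 := congrArg WeierstrassCurve.a₁ hC
  have e2 := congrArg WeierstrassCurve.a₂ hC
  have e4 := congrArg WeierstrassCurve.c₄ hC
  have eb2 := congrArg WeierstrassCurve.b₂ hC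
  have eb4 := congrArg WeierstrassCurve.b₄ hC
  have eb6 := congrArg WeierstrassCurve.b₆ hC
  rw [WeierstrassCurve.variableChange_a₁, hui, WeierstrassCurve.map_a₁,
    WeierstrassCurve.map_a₁] at e1
  rw [WeierstrassCurve.variableChange_a₂, hui, WeierstrassCurve.map_a₂, WeierstrassCurve.map_a₁,
    WeierstrassCurve.map_a₂] at e2
  rw [WeierstrassCurve.variableChange_c₄, hui, WeierstrassCurve.map_c₄,
    WeierstrassCurve.map_c₄] at e4
  rw [WeierstrassCurve.variableChange_b₂, hui, WeierstrassCurve.map_b₂,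
    WeierstrassCurve.map_b₂] at eb2
  rw [WeierstrassCurve.variableChange_b₄, hui, WeierstrassCurve.map_b₄, WeierstrassCurve.map_b₂,
    WeierstrassCurve.map_b₄] at eb4
  rw [WeierstrassCurve.variableChange_b₆, hui, WeierstrassCurve.map_b₆, WeierstrassCurve.map_b₄,
    WeierstrassCurve.map_b₂, WeierstrassCurve.map_b₆] at eb6
  set φ := algebraMap (𝓞 F) F with hφ
  -- the relations without denominators
  have r1 : φ V.a₁ + 2 * C.s = u * φ V'.a₁ := by
    rw [← e1]
    field_simp
  have r2 : φ V.a₂ - C.s * φ V.a₁ + 3 * C.r - C.s ^ 2 = u ^ 2 * φ V'.a₂ := by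
    rw [← e2]
    field_simp
  have r4 : φ V.c₄ = u ^ 4 * φ V'.c₄ := by
    rw [← e4]
    field_simp
  have rb2 : φ V.b₂ + 12 * C.r = u ^ 2 * φ V'.b₂ := by
    rw [← eb2]
    field_simp
  have rb4 : φ V.b₄ + C.r * φ V.b₂ + 6 * C.r ^ 2 = u ^ 4 * φ V'.b₄ := by
    rw [← eb4]
    field_simp
  have rb6 : φ V.b₆ + 2 * C.r * φ V.b₄ + C.r ^ 2 * φ V.b₂ + 4 * C.r ^ 3 = u ^ 6 * φ V'.b₆ := by
    rw [← eb6]
    field_simp
  set X : 𝓞 F := 18 * V.b₆ - V.b₂ * V.b₄ with hX
  set X' : 𝓞 F := 18 * V'.b₆ - V'.b₂ * V'.b₄ with hX'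
  have hc4 : φ V.c₄ = φ V.b₂ ^ 2 - 24 * φ V.b₄ := by
    rw [WeierstrassCurve.c₄, map_sub, map_pow, map_mul, map_ofNat]
  have rX : φ X = u ^ 6 * φ X' + C.r * φ V.c₄ := by
    rw [hc4, hX, hX', map_sub, map_mul, map_mul, map_sub, map_mul, map_mul, map_ofNat]
    linear_combination 18 * rb6 - (u ^ 2 * φ V'.b₂) * rb4 -
      (φ V.b₄ + C.r * φ V.b₂ + 6 * C.r ^ 2) * rb2
  -- the valuations
  have hv4 : w.valuation F (φ V.c₄) = 1 := (w.valuation_eq_one_iff_notMem (K := F)).2 h4
  have hv4' : w.valuation F (φ V'.c₄) = 1 := (w.valuation_eq_one_iff_notMem (K := F)).2 h4'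
  have hvu : w.valuation F u = 1 := by
    have h1 := congrArg (w.valuation F) r4
    rw [map_mul, map_pow, hv4, hv4', mul_one] at h1
    exact (pow_eq_one_iff.1 h1.symm).resolve_right (by norm_num)
  have hvint : ∀ a : 𝓞 F, w.valuation F (φ a) ≤ 1 := fun a => w.valuation_le_one a
  have hc40 : φ V.c₄ ≠ 0 := by
    intro h
    rw [h, map_zero] at hv4
    exact zero_ne_one hv4
  have hvr : w.valuation F C.r ≤ 1 := by
    have h1 : C.r = (φ X - u ^ 6 * φ X') / φ V.c₄ := by
      rw [eq_div_iff hc40]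
      linear_combination -rX
    rw [h1, map_div₀, hv4, div_one]
    refine (Valuation.map_sub _ _ _).trans (max_le (hvint X) ?_)
    rw [map_mul, map_pow, hvu, one_pow, one_mul]
    exact hvint X'
  have hvs : w.valuation F C.s ≤ 1 := by
    by_contra hcon
    rw [not_le] at hcon
    have h1 : C.s ^ 2 = -(C.s * φ V.a₁) + (φ V.a₂ + 3 * C.r - u ^ 2 * φ V'.a₂) := by
      linear_combination -r2
    have h3 : w.valuation F (3 : F) ≤ 1 := by
      have := hvint 3
      rwa [map_ofNat] at this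
    have h2 : w.valuation F (C.s ^ 2) ≤ w.valuation F C.s := by
      rw [h1]
      refine (Valuation.map_add _ _ _).trans (max_le ?_ ?_)
      · rw [Valuation.map_neg, map_mul]
        exact mul_le_of_le_one_right' (hvint _)
      · refine le_trans ?_ hcon.le
        refine (Valuation.map_sub _ _ _).trans (max_le ?_ ?_)
        · refine (Valuation.map_add _ _ _).trans (max_le (hvint _) ?_)
          rw [map_mul]
          exact mul_le_one' h3 hvr
        · rw [map_mul, map_pow, hvu, one_pow, one_mul]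
          exact hvint _
    rw [map_pow, sq] at h2
    have h5 : w.valuation F C.s ≤ 1 := by
      have h6 : (0 : WithZero (Multiplicative ℤ)) < w.valuation F C.s := zero_lt_one.trans hcon
      exact le_of_mul_le_mul_right (by rwa [one_mul]) h6
    exact absurd hcon (not_lt.2 h5)
  obtain ⟨ub, hub⟩ := Rs.exists (w := w) hvu.le
  obtain ⟨rb, hrb⟩ := Rs.exists (w := w) hvr
  obtain ⟨sb, hsb⟩ := Rs.exists (w := w) hvs
  set m := Ideal.Quotient.mk w.asIdeal with hm
  -- the relations of the residues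
  have q1 : m V.a₁ + 2 * sb = ub * m V'.a₁ := by
    refine Rs.unique (x := φ V.a₁ + 2 * C.s) ?_ ?_
    · exact (Rs.int w V.a₁).add ((by exact_mod_cast Rs.natCast (w := w) 2 : Rs w (2 : F) 2).mul hsb)
    · rw [r1]
      exact hub.mul (Rs.int w V'.a₁)
  have q2 : m V.a₂ + 3 * rb = ub ^ 2 * m V'.a₂ + (sb * m V.a₁ + sb ^ 2) := by
    refine Rs.unique (x := φ V.a₂ + 3 * C.r) ?_ ?_
    · exact (Rs.int w V.a₂).add ((by exact_mod_cast Rs.natCast (w := w) 3 : Rs w (3 : F) 3).mul hrb)
    · have h1 : φ V.a₂ + 3 * C.r = u ^ 2 * φ V'.a₂ + (C.s * φ V.a₁ + C.s ^ 2) := by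
        linear_combination r2
      rw [h1, sq u, sq ub, sq C.s, sq sb]
      exact ((hub.mul hub).mul (Rs.int w V'.a₂)).add ((hsb.mul (Rs.int w V.a₁)).add (hsb.mul hsb))
  have q4 : m V.c₄ = ub ^ 4 * m V'.c₄ := by
    refine Rs.unique (x := φ V.c₄) (Rs.int w V.c₄) ?_
    rw [r4]
    have h1 : u ^ 4 = (u * u) * (u * u) := by ring
    have h2 : ub ^ 4 = (ub * ub) * (ub * ub) := by ring
    rw [h1, h2]
    exact ((hub.mul hub).mul (hub.mul hub)).mul (Rs.int w V'.c₄)
  have qX : m X = ub ^ 6 * m X' + rb * m V.c₄ := by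
    refine Rs.unique (x := φ X) (Rs.int w X) ?_
    rw [rX]
    have h1 : u ^ 6 = (u * u) * (u * u) * (u * u) := by ring
    have h2 : ub ^ 6 = (ub * ub) * (ub * ub) * (ub * ub) := by ring
    rw [h1, h2]
    exact ((((hub.mul hub).mul (hub.mul hub)).mul (hub.mul hub)).mul (Rs.int w X')).add
      (hrb.mul (Rs.int w V.c₄))
  obtain ⟨x', t', hx', ht'⟩ := hT
  refine ⟨ub ^ 2 * x' + rb, ub * t' + sb, ?_, ?_⟩
  · change m V.c₄ * (ub ^ 2 * x' + rb) = m X
    have hx'' : m V'.c₄ * x' = m X' := hx'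
    rw [qX]
    have h1 : m V.c₄ * (ub ^ 2 * x' + rb) = ub ^ 2 * (m V.c₄ * x') + rb * m V.c₄ := by ring
    rw [h1, q4]
    linear_combination ub ^ 6 * hx''
  · change (ub * t' + sb) ^ 2 + m V.a₁ * (ub * t' + sb) = m V.a₂ + 3 * (ub ^ 2 * x' + rb)
    have ht'' : t' ^ 2 + m V'.a₁ * t' = m V'.a₂ + 3 * x' := ht'
    linear_combination ub ^ 2 * ht'' - q2 + (ub * t') * q1

end red

section quad

/-- a monic quadratic polynomial over a finite field has a root in an extension if and only if it has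
a root or the degree is even -/
theorem quad_root {k k' : Type} [Field k] [Finite k] [Field k'] [Finite k'] [Algebra k k'] (b c : k) :
    (∃ t : k', t ^ 2 + algebraMap k k' b * t = algebraMap k k' c) ↔
      (∃ t : k, t ^ 2 + b * t = c) ∨ 2 ∣ Module.finrank k k' := by
  constructor
  · rintro ⟨t, ht⟩
    by_cases hr : ∃ t : k, t ^ 2 + b * t = c
    · exact Or.inl hr
    · right
      set p : k[X] := X ^ 2 + C b * X - C c with hp
      have hdeg : p.natDegree = 2 := by rw [hp]; compute_degree!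
      have hirr : Irreducible p := by
        rw [Polynomial.irreducible_iff_roots_eq_zero_of_degree_le_three (by omega) (by omega)]
        rw [Multiset.eq_zero_iff_forall_notMem]
        intro x hx
        apply hr
        have h1 := (Polynomial.mem_roots'.1 hx).2
        rw [Polynomial.IsRoot.def, hp, eval_sub, eval_add, eval_pow, eval_X, eval_mul, eval_C,
          eval_X, eval_C] at h1
        exact ⟨x, by linear_combination h1⟩
      have hfac : Fact (Irreducible p) := ⟨hirr⟩
      have hfin : Module.finrank k (AdjoinRoot p) = 2 := by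
        rw [(AdjoinRoot.powerBasis hirr.ne_zero).finrank, AdjoinRoot.powerBasis_dim, hdeg]
      rw [← hfin]
      have hmf : Module.Finite k (AdjoinRoot p) := (AdjoinRoot.powerBasis hirr.ne_zero).finite
      have hf : Finite (AdjoinRoot p) := Module.finite_of_finite k
      refine (FiniteField.nonempty_algHom_iff_finrank_dvd (F := k) (K := AdjoinRoot p)
        (L := k')).1 ⟨AdjoinRoot.liftAlgHom p (Algebra.ofId k k') t ?_⟩
      rw [hp]
      simp only [eval₂_sub, eval₂_add, eval₂_pow, eval₂_X, eval₂_mul, eval₂_C]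
      change t ^ 2 + algebraMap k k' b * t - algebraMap k k' c = 0
      rw [ht, sub_self]
  · rintro (⟨t, ht⟩ | h2)
    · refine ⟨algebraMap k k' t, ?_⟩
      rw [← map_pow, ← map_mul, ← map_add, ht]
    · by_cases hr : ∃ t : k, t ^ 2 + b * t = c
      · obtain ⟨t, ht⟩ := hr
        refine ⟨algebraMap k k' t, ?_⟩
        rw [← map_pow, ← map_mul, ← map_add, ht]
      · set p : k[X] := X ^ 2 + C b * X - C c with hp
        have hdeg : p.natDegree = 2 := by rw [hp]; compute_degree!
        have hirr : Irreducible p := by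
          rw [Polynomial.irreducible_iff_roots_eq_zero_of_degree_le_three (by omega) (by omega)]
          rw [Multiset.eq_zero_iff_forall_notMem]
          intro x hx
          apply hr
          have h1 := (Polynomial.mem_roots'.1 hx).2
          rw [Polynomial.IsRoot.def, hp, eval_sub, eval_add, eval_pow, eval_X, eval_mul, eval_C,
            eval_X, eval_C] at h1
          exact ⟨x, by linear_combination h1⟩
        have hfac : Fact (Irreducible p) := ⟨hirr⟩
        have hfin : Module.finrank k (AdjoinRoot p) = 2 := by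
          rw [(AdjoinRoot.powerBasis hirr.ne_zero).finrank, AdjoinRoot.powerBasis_dim, hdeg]
        have hmf : Module.Finite k (AdjoinRoot p) := (AdjoinRoot.powerBasis hirr.ne_zero).finite
        have hf : Finite (AdjoinRoot p) := Module.finite_of_finite k
        obtain ⟨f⟩ := (FiniteField.nonempty_algHom_iff_finrank_dvd (F := k) (K := AdjoinRoot p)
          (L := k')).2 (by rw [hfin]; exact h2)
        refine ⟨f (AdjoinRoot.root p), ?_⟩
        have h1 := AdjoinRoot.eval₂_root p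
        rw [hp] at h1
        simp only [eval₂_sub, eval₂_add, eval₂_pow, eval₂_X, eval₂_mul, eval₂_C] at h1
        have h3 := congrArg f h1
        rw [map_sub, map_add, map_pow, map_mul, map_zero] at h3
        have h4 : ∀ a : k, f (AdjoinRoot.of p a) = algebraMap k k' a := fun a => f.commutes a
        rw [h4, h4] at h3
        exact sub_eq_zero.1 h3

end quad

end Pool.Agent.Q92.PA
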