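import Pool.Agent.Q92.PA.Node
import Pool.Agent.Q92.PA.Deg
import Pool.Agent.Q5.BR.Model

/-! The primes of split multiplicative reduction in a relation between permutation characters. -/

set_option autoImplicit false
set_option linter.unusedSectionVars false

namespace Pool.Agent.Q92.PA

open NumberField IsDedekindDomain Filter Pool.Agent.W401.Cheb Pool.Agent.W353.NF Pool.Agent.Q5.BR
open scoped Classical

section
variable {K F : Type} [Field K] [NumberField K] [Field F] [NumberField F] [Algebra K F]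

theorem modelOf_map {E : WeierstrassCurve K} {V : WeierstrassCurve (𝓞 K)} (h : ModelOf E V) :
    ModelOf (E.map (algebraMap K F)) (V.map (algebraMap (𝓞 K) (𝓞 F))) := isModel_map h

theorem mem_under {w : HeightOneSpectrum (𝓞 F)} {a : 𝓞 K} :
    algebraMap (𝓞 K) (𝓞 F) a ∈ w.asIdeal ↔ a ∈ (w.under (𝓞 K)).asIdeal := Iff.rfl

/-- semistable curves stay semistable -/
theorem Semistable.map {E : WeierstrassCurve K} (h : Semistable E) :
    Semistable (E.map (algebraMap K F)) := by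
  intro w
  obtain ⟨V, hV, h1⟩ := h (w.under (𝓞 K))
  refine ⟨_, modelOf_map hV, ?_⟩
  rw [WeierstrassCurve.map_Δ, WeierstrassCurve.map_c₄, mem_under, mem_under]
  exact h1

/-- **The tangents over an extension.** -/
theorem tan_map {V : WeierstrassCurve (𝓞 K)} {w : HeightOneSpectrum (𝓞 F)}
    (h4 : V.c₄ ∉ (w.under (𝓞 K)).asIdeal) :
    Tan (V.map (algebraMap (𝓞 K) (𝓞 F))) w ↔ Tan V (w.under (𝓞 K)) ∨ 2 ∣ rdeg K w := by
  set v := w.under (𝓞 K) with hv
  have hwo : w.asIdeal.LiesOver v.asIdeal := ⟨rfl⟩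
  have hvm : v.asIdeal.IsMaximal := v.isMaximal
  have hwm : w.asIdeal.IsMaximal := w.isMaximal
  let _ : Field (𝓞 K ⧸ v.asIdeal) := Ideal.Quotient.field v.asIdeal
  let _ : Field (𝓞 F ⧸ w.asIdeal) := Ideal.Quotient.field w.asIdeal
  have hfk : Finite (𝓞 K ⧸ v.asIdeal) := Ideal.finiteQuotientOfFreeOfNeBot v.asIdeal v.ne_bot
  have hfw : Finite (𝓞 F ⧸ w.asIdeal) := Ideal.finiteQuotientOfFreeOfNeBot w.asIdeal w.ne_bot
  have hf : Module.finrank (𝓞 K ⧸ v.asIdeal) (𝓞 F ⧸ w.asIdeal) = rdeg K w := by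
    unfold rdeg
    rw [Ideal.inertiaDeg'_algebraMap]
  set m := Ideal.Quotient.mk v.asIdeal with hm
  set m' := Ideal.Quotient.mk w.asIdeal with hm'
  set ι := algebraMap (𝓞 K ⧸ v.asIdeal) (𝓞 F ⧸ w.asIdeal) with hι
  have hc : ∀ a : 𝓞 K, m' (algebraMap (𝓞 K) (𝓞 F) a) = ι (m a) := fun a => rfl
  have hinj : Function.Injective ι := ι.injective
  set X : 𝓞 K := 18 * V.b₆ - V.b₂ * V.b₄ with hX
  have h4' : m V.c₄ ≠ 0 := fun h => h4 (Ideal.Quotient.eq_zero_iff_mem.1 h)
  have hX' : m' (18 * (V.map (algebraMap (𝓞 K) (𝓞 F))).b₆ -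
      (V.map (algebraMap (𝓞 K) (𝓞 F))).b₂ * (V.map (algebraMap (𝓞 K) (𝓞 F))).b₄) = ι (m X) := by
    rw [← hc, hX, WeierstrassCurve.map_b₂, WeierstrassCurve.map_b₄, WeierstrassCurve.map_b₆]
    congr 1
    rw [map_sub, map_mul, map_mul, map_ofNat]
  set x₀ : 𝓞 K ⧸ v.asIdeal := m X / m V.c₄ with hx₀
  have hx₀' : m V.c₄ * x₀ = m X := mul_div_cancel₀ _ h4'
  have hq := quad_root (k' := 𝓞 F ⧸ w.asIdeal) (m V.a₁) (m V.a₂ + 3 * x₀)
  rw [hf] at hq
  constructor
  · rintro ⟨x, t, hx, ht⟩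
    rw [WeierstrassCurve.map_c₄, hX'] at hx
    rw [WeierstrassCurve.map_a₁, WeierstrassCurve.map_a₂] at ht
    have h5 : x = ι x₀ := by
      refine mul_left_cancel₀ (a := ι (m V.c₄)) (fun h => h4' (hinj (h.trans (map_zero ι).symm))) ?_
      rw [← map_mul, hx₀']
      exact hx
    rcases hq.1 ⟨t, by
      rw [map_add, map_mul, map_ofNat, ← h5]
      exact ht⟩ with ⟨s, hs⟩ | h6
    · exact Or.inl ⟨x₀, s, hx₀', hs⟩
    · exact Or.inr h6
  · intro h
    obtain ⟨t, ht⟩ := hq.2 (by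
      rcases h with ⟨x, s, hx, hs⟩ | h6
      · left
        refine ⟨s, ?_⟩
        have h5 : x = x₀ := by
          refine mul_left_cancel₀ h4' ?_
          rw [hx₀']
          exact hx
        rw [← h5]
        exact hs
      · exact Or.inr h6)
    refine ⟨ι x₀, t, ?_, ?_⟩
    · rw [WeierstrassCurve.map_c₄, hX']
      change ι (m V.c₄) * ι x₀ = _
      rw [← map_mul, hx₀']
    · rw [WeierstrassCurve.map_a₁, WeierstrassCurve.map_a₂]
      rw [map_add, map_mul, map_ofNat] at ht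
      exact ht

/-- **Split reduction over an extension.** -/
theorem splitAt_map {E : WeierstrassCurve K} {w : HeightOneSpectrum (𝓞 F)}
    {V : WeierstrassCurve (𝓞 K)} (hV : ModelOf E V)
    (h : V.Δ ∉ (w.under (𝓞 K)).asIdeal ∨ V.c₄ ∉ (w.under (𝓞 K)).asIdeal) :
    SplitAt (E.map (algebraMap K F)) w ↔
      (V.Δ ∈ (w.under (𝓞 K)).asIdeal ∧ V.c₄ ∉ (w.under (𝓞 K)).asIdeal) ∧
        (Tan V (w.under (𝓞 K)) ∨ 2 ∣ rdeg K w) := by
  constructor
  · rintro ⟨V', hV', hs⟩
    rw [splitNode_iff] at hs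
    obtain ⟨hΔ, h4, hT⟩ := hs
    have h1 := disc_inv (modelOf_map (F := F) hV) hV' hΔ h4
    rw [WeierstrassCurve.map_Δ, mem_under] at h1
    have h2 : V.c₄ ∉ (w.under (𝓞 K)).asIdeal := h.resolve_left fun h3 => h3 h1
    refine ⟨⟨h1, h2⟩, (tan_map h2).1 ?_⟩
    refine tan_inv (modelOf_map (F := F) hV) hV' ?_ h4 hT
    rw [WeierstrassCurve.map_c₄, mem_under]
    exact h2
  · rintro ⟨⟨h1, h2⟩, h3⟩
    refine ⟨_, modelOf_map hV, ?_⟩
    rw [splitNode_iff, WeierstrassCurve.map_Δ, WeierstrassCurve.map_c₄, mem_under, mem_under]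
    exact ⟨h1, h2, (tan_map h2).2 h3⟩

end

section
variable {K : Type} [Field K] [NumberField K]

/-- the primes that divide a nonzero element -/
theorem primes_finite {a : 𝓞 K} (ha : a ≠ 0) :
    {v : HeightOneSpectrum (𝓞 K) | a ∈ v.asIdeal}.Finite := by
  have h1 : (Ideal.span {a} : Ideal (𝓞 K)) ≠ 0 := by
    rw [Ne, Ideal.zero_eq_bot, Ideal.span_singleton_eq_bot]
    exact ha
  refine (Ideal.finite_factors h1).subset fun v hv => ?_
  change v.asIdeal ∣ Ideal.span {a}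
  rw [Ideal.dvd_span_singleton]
  exact hv

/-- **The count of the primes of split reduction over the extensions.** -/
theorem spl_eq {E : WeierstrassCurve K} (hE : E.IsElliptic) (hs : Semistable E) :
    ∃ (T : Finset (HeightOneSpectrum (𝓞 K))) (C : HeightOneSpectrum (𝓞 K) → ℕ → Prop),
      (∀ v d, Odd d → (C v d ↔ C v 1)) ∧
      ∀ (F : Type) [Field F] [NumberField F] [Algebra K F],
        spl (E.map (algebraMap K F)) =
          ∑ v ∈ T, ((above F v).filter fun w => C v (rdeg K w)).card := by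
  obtain ⟨W, hW⟩ := exists_model E
  have hW0 := model_Δ hE hW
  choose V hV hV' using hs
  obtain ⟨C, hC⟩ : ∃ C : HeightOneSpectrum (𝓞 K) → ℕ → Prop, ∀ v d, C v d ↔
      ((V v).Δ ∈ v.asIdeal ∧ (V v).c₄ ∉ v.asIdeal) ∧ (Tan (V v) v ∨ 2 ∣ d) :=
    ⟨_, fun _ _ => Iff.rfl⟩
  refine ⟨(primes_finite hW0).toFinset, C, fun v d hd => ?_, fun F _ _ _ => ?_⟩
  · rw [hC, hC]
    have h1 : ¬ 2 ∣ d := fun h => Nat.not_even_iff_odd.2 hd (even_iff_two_dvd.2 h)
    have h2 : ¬ 2 ∣ 1 := by norm_num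
    simp only [h1, h2]
  have h1 : ∀ w : HeightOneSpectrum (𝓞 F), SplitAt (E.map (algebraMap K F)) w ↔
      w ∈ (primes_finite hW0).toFinset.biUnion fun v => (above F v).filter fun w =>
        C v (rdeg K w) := by
    intro w
    rw [splitAt_map (hV (w.under (𝓞 K))) (hV' (w.under (𝓞 K))), Finset.mem_biUnion]
    constructor
    · intro h
      refine ⟨w.under (𝓞 K), ?_, ?_⟩
      · rw [Set.Finite.mem_toFinset]
        exact disc_inv hW (hV (w.under (𝓞 K))) h.1.1 h.1.2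
      · rw [Finset.mem_filter, mem_above, hC]
        exact ⟨rfl, h⟩
    · rintro ⟨v, -, hv⟩
      rw [Finset.mem_filter, mem_above, hC] at hv
      obtain ⟨rfl, h⟩ := hv
      exact h
  unfold spl
  rw [Nat.card_congr (Equiv.subtypeEquivRight h1), Nat.card_eq_fintype_card, Fintype.card_coe,
    Finset.card_biUnion]
  intro v _ v' _ hne
  rw [Function.onFun, Finset.disjoint_left]
  intro w hw hw'
  rw [Finset.mem_filter, mem_above] at hw hw'
  exact hne (hw.1.symm.trans hw'.1)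

variable {ι : Type} [Fintype ι]

/-- **The relation between the numbers of primes of split reduction.** -/
theorem spl_rel {X : ι → Ext K} {n : ι → ℤ} (h : Rel X n) {E : WeierstrassCurve K}
    (hE : E.IsElliptic) (hs : Semistable E) :
    ∑ j, n j * (spl (E.map (algebraMap K (X j).F)) : ℤ) = 0 := by
  obtain ⟨T, C, -, hT⟩ := spl_eq hE hs
  have h1 : ∀ j, (spl (E.map (algebraMap K (X j).F)) : ℤ) =
      ∑ v ∈ T, (((above (X j).F v).filter fun w => C v (rdeg K w)).card : ℤ) := by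
    intro j
    rw [hT (X j).F]
    push_cast
    rfl
  simp only [h1, Finset.mul_sum]
  rw [Finset.sum_comm]
  exact Finset.sum_eq_zero fun v _ => rel_cond h v (C v)

end

end Pool.Agent.Q92.PA
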